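import Pool.Agent.LDM.Defs

/-! LDM-AbGen. The minimal number of generators of a finitely generated abelian group is the maximum
over the primes `p` of the dimension of `M/pM`.

`ag_gen`: a group of rank `k` maps onto `(Z/p)^n` only for `n ≤ k`.  `ag_struct`: the structure theorem;
`ag_dim`: `r + #{i | q i = p, e i ≠ 0} ≤ n`.  So the indices can be coloured by `n - r` colours such that
indices with the same prime have different colours; the `r` basis vectors of the free part and the sums
of the generators of one colour generate the group (`ag_top`, Chinese remainder). -/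

universe u

namespace LDM

private theorem ag_gen {M : Type*} [Group M] {n p : ℕ} [Fact p.Prime]
    (g : M →* Multiplicative (Fin n → ZMod p)) (hg : Function.Surjective g) (S : Finset M)
    (hS : Subgroup.closure (S : Set M) = ⊤) : n ≤ S.card := by
  classical
  have key : ∀ x ∈ Subgroup.closure (S : Set M), (g x).toAdd ∈ Submodule.span (ZMod p)
      ((S.image fun x => (g x).toAdd : Finset (Fin n → ZMod p)) : Set (Fin n → ZMod p)) := by
    intro x hx
    induction hx using Subgroup.closure_induction with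
    | mem x hx =>
      exact Submodule.subset_span (Finset.mem_coe.2 (Finset.mem_image_of_mem (fun x => (g x).toAdd) hx))
    | one => rw [map_one]; exact Submodule.zero_mem _
    | mul x y _ _ h h' => rw [map_mul]; exact Submodule.add_mem _ h h'
    | inv x _ h => rw [map_inv]; exact Submodule.neg_mem _ h
  have h1 : Submodule.span (ZMod p)
      ((S.image fun x => (g x).toAdd : Finset (Fin n → ZMod p)) : Set (Fin n → ZMod p)) = ⊤ := by
    rw [eq_top_iff]
    intro v _
    obtain ⟨x, hx⟩ := hg (Multiplicative.ofAdd v)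
    have h2 := key x (by rw [hS]; exact Subgroup.mem_top x)
    rw [hx] at h2
    exact h2
  have h2 := finrank_span_finset_le_card (R := ZMod p) (S.image fun x => (g x).toAdd)
  rw [Set.finrank, h1, finrank_top, Module.finrank_fin_fun] at h2
  exact h2.trans Finset.card_image_le

theorem deltaP_le_delta (A : Type u) [Group A] (p : ℕ) [Fact p.Prime] :
    deltaP p A ≤ delta A := by
  refine iSup₂_le fun n hn => le_iInf₂ fun S hS => ?_
  obtain ⟨f, hf⟩ := hn
  have hg : Function.Surjective (Abelianization.lift f) := by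
    intro v
    obtain ⟨x, hx⟩ := hf v
    exact ⟨Abelianization.of x, by rw [Abelianization.lift_apply_of, hx]⟩
  exact_mod_cast ag_gen (Abelianization.lift f) hg S hS

private theorem ag_struct (M : Type u) [CommGroup M] [Group.FG M] :
    ∃ (r : ℕ) (ι : Type) (_ : Fintype ι) (p : ι → ℕ) (_ : ∀ i, (p i).Prime) (e : ι → ℕ),
      Nonempty (Additive M ≃+ (Fin r → ℤ) × ((i : ι) → ZMod (p i ^ e i))) := by
  obtain ⟨r, ι, hι, p, hp, e, ⟨φ⟩⟩ := AddCommGroup.equiv_free_prod_directSum_zmod (Additive M)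
  exact ⟨r, ι, hι, p, hp, e, ⟨φ.trans ((Finsupp.linearEquivFunOnFinite ℤ ℤ (Fin r)).toAddEquiv.prodCongr
    (DirectSum.addEquivProd _))⟩⟩

private theorem ag_dim (A : Type u) [Group A] {r : ℕ} {ι : Type} [Fintype ι] {p e : ι → ℕ}
    (φ : Additive (Abelianization A) ≃+ (Fin r → ℤ) × ((i : ι) → ZMod (p i ^ e i))) (q : ℕ)
    (hq : q.Prime) {n : ℕ} (h : deltaP q A ≤ n) :
    r + Nat.card {i // p i = q ∧ e i ≠ 0} ≤ n := by
  classical
  have : Fact q.Prime := ⟨hq⟩
  have hd : ∀ i : {i // p i = q ∧ e i ≠ 0}, q ∣ p i.1 ^ e i.1 := by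
    rintro ⟨i, rfl, hi⟩
    exact dvd_pow_self _ hi
  let ψ : (Fin r → ℤ) × ((i : ι) → ZMod (p i ^ e i)) →+
      (Fin r ⊕ {i // p i = q ∧ e i ≠ 0} → ZMod q) :=
    { toFun := fun w => Sum.elim (fun k => ((w.1 k : ℤ) : ZMod q))
        (fun i => ZMod.castHom (hd i) (ZMod q) (w.2 i.1))
      map_zero' := by
        ext x
        rcases x with k | i <;> simp
      map_add' := by
        intro w w'
        ext x
        rcases x with k | i
        · simp
        · show ZMod.castHom (hd i) (ZMod q) (w.2 i.1 + w'.2 i.1) = _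
          rw [map_add]
          rfl }
  have hψ : Function.Surjective ψ := by
    intro v
    refine ⟨(fun k => ((v (Sum.inl k)).val : ℤ), fun i => if h : p i = q ∧ e i ≠ 0 then
      (((v (Sum.inr ⟨i, h⟩)).val : ℕ) : ZMod (p i ^ e i)) else 0), ?_⟩
    ext x
    rcases x with k | i
    · show ((((v (Sum.inl k)).val : ℕ) : ℤ) : ZMod q) = v (Sum.inl k)
      rw [Int.cast_natCast, ZMod.natCast_zmod_val]
    · show ZMod.castHom (hd i) (ZMod q) (if h : p i.1 = q ∧ e i.1 ≠ 0 then
        (((v (Sum.inr ⟨i.1, h⟩)).val : ℕ) : ZMod (p i.1 ^ e i.1)) else 0) = v (Sum.inr i)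
      rw [dif_pos i.2, map_natCast, ZMod.natCast_zmod_val]
  have hcard : Nat.card (Fin r ⊕ {i // p i = q ∧ e i ≠ 0}) =
      r + Nat.card {i // p i = q ∧ e i ≠ 0} := by
    rw [Nat.card_sum, Nat.card_fin]
  have ε : Fin (r + Nat.card {i // p i = q ∧ e i ≠ 0}) ≃ Fin r ⊕ {i // p i = q ∧ e i ≠ 0} :=
    (Finite.equivFinOfCardEq hcard).symm
  let f : A →* Multiplicative (Fin (r + Nat.card {i // p i = q ∧ e i ≠ 0}) → ZMod q) :=
    { toFun := fun x => Multiplicative.ofAdd fun k => ψ (φ (Additive.ofMul (Abelianization.of x))) (ε k)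
      map_one' := by
        rw [map_one, ofMul_one, map_zero, map_zero]
        rfl
      map_mul' := by
        intro x y
        rw [map_mul, ofMul_mul, map_add, map_add]
        rfl }
  have hf : Function.Surjective f := by
    intro v
    obtain ⟨w, hw⟩ := hψ (fun x => v.toAdd (ε.symm x))
    obtain ⟨x, hx⟩ := QuotientGroup.mk_surjective (φ.symm w).toMul
    refine ⟨x, ?_⟩
    have h1 : φ (Additive.ofMul (Abelianization.of x)) = w := by
      have h2 : Additive.ofMul (Abelianization.of x) = φ.symm w := congrArg Additive.ofMul hx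
      rw [h2, AddEquiv.apply_symm_apply]
    show Multiplicative.ofAdd (fun k => ψ (φ (Additive.ofMul (Abelianization.of x))) (ε k)) = v
    rw [h1, hw]
    simp
  have h1 : ((r + Nat.card {i // p i = q ∧ e i ≠ 0} : ℕ) : ℕ∞) ≤ deltaP q A :=
    le_iSup₂_of_le (f := fun (n : ℕ) (_ : ∃ f : A →* Multiplicative (Fin n → ZMod q),
      Function.Surjective f) => (n : ℕ∞)) _ ⟨f, hf⟩ le_rfl
  exact_mod_cast h1.trans h

private theorem ag_top {r : ℕ} {ι : Type} [Fintype ι] {p e : ι → ℕ} (hp : ∀ i, (p i).Prime) {m : ℕ}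
    (Q : ι → Fin m → Prop) [∀ i l, Decidable (Q i l)] (h1 : ∀ i, e i ≠ 0 → ∃ l, Q i l)
    (h2 : ∀ i i' l, Q i l → Q i' l → p i = p i' → i = i')
    (H : AddSubgroup ((Fin r → ℤ) × ((i : ι) → ZMod (p i ^ e i))))
    (hH1 : ∀ k, ((Pi.single k 1 : Fin r → ℤ), (0 : (i : ι) → ZMod (p i ^ e i))) ∈ H)
    (hH2 : ∀ l, ((0 : Fin r → ℤ),
      (fun i => if Q i l then 1 else 0 : (i : ι) → ZMod (p i ^ e i))) ∈ H) :
    H = ⊤ := by
  classical
  rw [eq_top_iff]
  rintro ⟨a, b⟩ -
  have ha : ((a, 0) : (Fin r → ℤ) × ((i : ι) → ZMod (p i ^ e i))) ∈ H := by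
    have e1 : ((a, 0) : (Fin r → ℤ) × ((i : ι) → ZMod (p i ^ e i))) =
        ∑ k, a k • ((Pi.single k 1 : Fin r → ℤ), (0 : (i : ι) → ZMod (p i ^ e i))) := by
      refine Prod.ext ?_ ?_
      · rw [Prod.fst_sum]
        ext k
        simp [Finset.sum_apply, Pi.single_apply]
      · rw [Prod.snd_sum]
        simp
    rw [e1]
    exact sum_mem fun k _ => zsmul_mem (hH1 k) _
  have hb : ∀ i, ((0, Pi.single i (b i)) : (Fin r → ℤ) × ((i : ι) → ZMod (p i ^ e i))) ∈ H := by
    intro i
    by_cases hi : e i = 0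
    · have h3 : b i = 0 := by
        have : Subsingleton (ZMod (p i ^ e i)) := by
          rw [hi, pow_zero]
          infer_instance
        exact Subsingleton.elim _ _
      rw [h3, Pi.single_zero]
      exact zero_mem H
    · obtain ⟨l, hl⟩ := h1 i hi
      set N : ℤ := ∏ i' ∈ Finset.univ.filter (fun i' => Q i' l ∧ i' ≠ i), ((p i' ^ e i' : ℕ) : ℤ)
        with hN
      have hcop : IsCoprime N ((p i ^ e i : ℕ) : ℤ) := by
        refine IsCoprime.prod_left fun i' hi' => ?_
        rw [Finset.mem_filter] at hi'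
        rw [Nat.isCoprime_iff_coprime]
        exact Nat.Coprime.pow _ _ ((Nat.coprime_primes (hp i') (hp i)).2
          fun h => hi'.2.2 (h2 i' i l hi'.2.1 hl h))
      obtain ⟨u, v, huv⟩ := hcop
      have e1 : ((0, Pi.single i (b i)) : (Fin r → ℤ) × ((i : ι) → ZMod (p i ^ e i))) =
          (((b i).cast : ℤ) * (u * N)) • ((0 : Fin r → ℤ),
            (fun i => if Q i l then 1 else 0 : (i : ι) → ZMod (p i ^ e i))) := by
        refine Prod.ext ?_ ?_
        · rw [Prod.smul_fst, smul_zero]
        · rw [Prod.smul_snd]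
          ext i'
          show (Pi.single i (b i) : (i : ι) → ZMod (p i ^ e i)) i' =
            (((b i).cast : ℤ) * (u * N)) • (if Q i' l then 1 else 0 : ZMod (p i' ^ e i'))
          by_cases hii : i' = i
          · subst hii
            rw [Pi.single_eq_same, if_pos hl, zsmul_one, Int.cast_mul, ZMod.intCast_zmod_cast]
            have h3 : u * N = 1 - v * ((p i' ^ e i' : ℕ) : ℤ) := by linarith
            rw [h3, Int.cast_sub, Int.cast_one, Int.cast_mul, Int.cast_natCast, ZMod.natCast_self,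
              mul_zero, sub_zero, mul_one]
          · rw [Pi.single_eq_of_ne hii]
            by_cases hq : Q i' l
            · rw [if_pos hq, zsmul_one]
              have h3 : ((p i' ^ e i' : ℕ) : ℤ) ∣ N :=
                Finset.dvd_prod_of_mem (fun i' => ((p i' ^ e i' : ℕ) : ℤ))
                  (Finset.mem_filter.2 ⟨Finset.mem_univ _, hq, hii⟩)
              exact ((ZMod.intCast_zmod_eq_zero_iff_dvd _ _).2
                ((h3.mul_left u).mul_left _)).symm
            · rw [if_neg hq, smul_zero]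
      rw [e1]
      exact zsmul_mem (hH2 l) _
  have e2 : ((a, b) : (Fin r → ℤ) × ((i : ι) → ZMod (p i ^ e i))) =
      (a, 0) + ∑ i, (0, Pi.single i (b i)) := by
    refine Prod.ext ?_ ?_
    · rw [Prod.fst_add, Prod.fst_sum]
      simp
    · rw [Prod.snd_add, Prod.snd_sum, zero_add]
      exact (Finset.univ_sum_single b).symm
  rw [e2]
  exact add_mem ha (sum_mem fun i _ => hb i)

theorem delta_le (A : Type u) [Group A] [Group.FG A] (n : ℕ)
    (h : ∀ p : ℕ, p.Prime → deltaP p A ≤ n) : delta A ≤ n := by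
  classical
  have : Group.FG (Abelianization A) := QuotientGroup.fg _
  obtain ⟨r, ι, hι, p, hp, e, ⟨φ⟩⟩ := ag_struct (Abelianization A)
  have hdim : ∀ q : ℕ, q.Prime → r + Nat.card {i // p i = q ∧ e i ≠ 0} ≤ n :=
    fun q hq => ag_dim A φ q hq (h q hq)
  have hr : r ≤ n := by
    have := hdim 2 Nat.prime_two
    omega
  have hc : ∀ q : ℕ, ∃ c : {i // p i = q ∧ e i ≠ 0} → Fin (n - r), Function.Injective c := by
    intro q
    by_cases hq : q.Prime
    · have h1 := hdim q hq
      have h2 : Fintype.card {i // p i = q ∧ e i ≠ 0} ≤ Fintype.card (Fin (n - r)) := by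
        rw [Fintype.card_fin, ← Nat.card_eq_fintype_card]
        omega
      obtain ⟨c⟩ := Function.Embedding.nonempty_of_card_le h2
      exact ⟨c, c.injective⟩
    · exact ⟨fun i => absurd (i.2.1 ▸ hp i.1) hq, fun i => absurd (i.2.1 ▸ hp i.1) hq⟩
  choose c hc using hc
  set Q : ι → Fin (n - r) → Prop := fun i l => ∃ hi : e i ≠ 0, c (p i) ⟨i, rfl, hi⟩ = l with hQ
  have hQ1 : ∀ i, e i ≠ 0 → ∃ l, Q i l := fun i hi => ⟨_, hi, rfl⟩
  have hQ2 : ∀ i i' l, Q i l → Q i' l → p i = p i' → i = i' := by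
    rintro i i' l ⟨h1, h2⟩ ⟨h3, h4⟩ h5
    have h6 : ∀ (q : ℕ) (hi : p i = q) (hi' : p i' = q), c q ⟨i, hi, h1⟩ = c q ⟨i', hi', h3⟩ →
        i = i' := by
      intro q hi hi' h7
      exact congrArg Subtype.val (hc q h7)
    have h7 : ∀ (q : ℕ) (hi : p i = q), c q ⟨i, hi, h1⟩ = l := by
      rintro q rfl
      exact h2
    exact h6 (p i') h5 rfl (by rw [h7 _ h5, h4])
  set gen : Fin r ⊕ Fin (n - r) → (Fin r → ℤ) × ((i : ι) → ZMod (p i ^ e i)) := Sum.elim
    (fun k => ((Pi.single k 1 : Fin r → ℤ), (0 : (i : ι) → ZMod (p i ^ e i))))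
    (fun l => ((0 : Fin r → ℤ), (fun i => if Q i l then 1 else 0 : (i : ι) → ZMod (p i ^ e i))))
    with hgen
  have htop : AddSubgroup.closure (Set.range gen) = ⊤ :=
    ag_top hp Q hQ1 hQ2 _ (fun k => AddSubgroup.subset_closure ⟨Sum.inl k, rfl⟩)
      (fun l => AddSubgroup.subset_closure ⟨Sum.inr l, rfl⟩)
  set S : Finset (Abelianization A) := Finset.univ.image fun x => (φ.symm (gen x)).toMul with hS
  have hmem : ∀ w ∈ AddSubgroup.closure (Set.range gen),
      (φ.symm w).toMul ∈ Subgroup.closure (S : Set (Abelianization A)) := by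
    intro w hw
    induction hw using AddSubgroup.closure_induction with
    | mem w hw =>
      obtain ⟨x, rfl⟩ := hw
      refine Subgroup.subset_closure (Finset.mem_coe.2 ?_)
      rw [hS]
      exact Finset.mem_image.2 ⟨x, Finset.mem_univ _, rfl⟩
    | zero => rw [map_zero]; exact Subgroup.one_mem _
    | add x y _ _ h h' => rw [map_add]; exact Subgroup.mul_mem _ h h'
    | neg x _ h => rw [map_neg]; exact Subgroup.inv_mem _ h
  have hSc : Subgroup.closure (S : Set (Abelianization A)) = ⊤ := by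
    rw [eq_top_iff]
    intro x _
    have h1 := hmem (φ (Additive.ofMul x)) (by rw [htop]; exact AddSubgroup.mem_top _)
    rw [AddEquiv.symm_apply_apply] at h1
    exact h1
  have hcard : S.card ≤ n := by
    refine Finset.card_image_le.trans ?_
    rw [Finset.card_univ, Fintype.card_sum, Fintype.card_fin, Fintype.card_fin]
    omega
  exact iInf₂_le_of_le S hSc (by exact_mod_cast hcard)

end LDM
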