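import Pool.Agent.LDM.Defs

/-! LDM-Act. A normal elementary abelian subgroup `M` of order at most `p^r` is centralized by every
subgroup `W` which lies in the kernel of all homomorphisms `G → GL_r(F_p)`.

PLAN. `M` is commutative (`hcomm`) of exponent `p`, so `Additive M` is a `ZMod p`-module
(`AddCommGroup.zmodModule`; build a local `CommGroup M` instance from `hcomm`, e.g. by working with
`M ≃* ...`, or define everything by hand). It is finite of cardinality at most `p^r`, so it is of
dimension `d ≤ r`. `G` acts on `M` by conjugation, which gives `G →* (E ≃ₗ[ZMod p] E)` with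
`E = Additive M × (Fin (r-d) → ZMod p)` (trivial action on the second factor), `finrank E = r`; a
basis of `E` indexed by `Fin r` gives `ρ : G →* GL (Fin r) (ZMod p)` (`LinearMap.toMatrixAlgEquiv`,
`Matrix.GeneralLinearGroup`, `LinearMap.GeneralLinearGroup`). For `w ∈ W` we have `ρ w = 1`, so `w`
acts trivially on `M`: `w m w⁻¹ = m` for all `m ∈ M`, and the commutator is trivial.
Any other route (for instance a permutation-free choice of coordinates) is fine. -/

universe u

namespace LDM

private theorem act_aux {G : Type u} [Group G] {p : ℕ} [Fact p.Prime] (r : ℕ) (A : Type u)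
    [AddCommGroup A] [Module (ZMod p) A] [Finite A] (hcard : Nat.card A ≤ p ^ r)
    (φ : G →* Module.End (ZMod p) A) (W : Subgroup G)
    (hW : ∀ ρ : G →* Matrix.GeneralLinearGroup (Fin r) (ZMod p), W ≤ ρ.ker) :
    ∀ w ∈ W, φ w = 1 := by
  have hp := (Fact.out : p.Prime)
  have hfd : Module.Finite (ZMod p) A := Module.Finite.of_finite
  have hd : Module.finrank (ZMod p) A ≤ r := by
    have h1 : Nat.card A = p ^ Module.finrank (ZMod p) A := by
      have h2 := Module.natCard_eq_pow_finrank (K := ZMod p) (V := A)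
      rwa [Nat.card_zmod] at h2
    rw [h1] at hcard
    exact (Nat.pow_le_pow_iff_right hp.one_lt).1 hcard
  have hE : Module.finrank (ZMod p) (A × (Fin (r - Module.finrank (ZMod p) A) → ZMod p)) = r := by
    rw [Module.finrank_prod, Module.finrank_fin_fun]
    omega
  let b := Module.finBasisOfFinrankEq (ZMod p)
    (A × (Fin (r - Module.finrank (ZMod p) A) → ZMod p)) hE
  let F : G →* Module.End (ZMod p) (A × (Fin (r - Module.finrank (ZMod p) A) → ZMod p)) :=
    { toFun := fun g => LinearMap.prodMap (φ g) LinearMap.id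
      map_one' := by
        rw [map_one]
        exact LinearMap.prodMap_one
      map_mul' := fun g h => by
        rw [map_mul]
        refine LinearMap.ext fun x => ?_
        rfl }
  let ρ : G →* Matrix.GeneralLinearGroup (Fin r) (ZMod p) :=
    MonoidHom.toHomUnits
      (((LinearMap.toMatrixAlgEquiv b : _ ≃ₐ[ZMod p] _) : _ →* _).comp F)
  intro w hw
  have h1 : ρ w = 1 := hW ρ hw
  have h2 : (LinearMap.toMatrixAlgEquiv b) (F w) = 1 := by
    have h3 := congrArg (fun u : Matrix.GeneralLinearGroup (Fin r) (ZMod p) =>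
      (u : Matrix (Fin r) (Fin r) (ZMod p))) h1
    exact h3
  have h3 : F w = 1 := by
    have h4 : (LinearMap.toMatrixAlgEquiv b) (F w) = (LinearMap.toMatrixAlgEquiv b) 1 := by
      rw [h2, map_one]
    exact (LinearMap.toMatrixAlgEquiv b).injective h4
  refine LinearMap.ext fun x => ?_
  have h4 := congrArg Prod.fst (LinearMap.congr_fun h3
    ((x, 0) : A × (Fin (r - Module.finrank (ZMod p) A) → ZMod p)))
  exact h4

private theorem act_lin {G : Type u} [Group G] {p : ℕ} [Fact p.Prime] (A : Type u)
    [AddCommGroup A] [Module (ZMod p) A] (φ : G → A →+ A) (h1 : ∀ x, φ 1 x = x)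
    (hmul : ∀ g h x, φ (g * h) x = φ g (φ h x)) :
    ∃ ψ : G →* Module.End (ZMod p) A, ∀ g x, ψ g x = φ g x := by
  refine ⟨
    { toFun := fun g => AddMonoidHom.toZModLinearMap p (φ g)
      map_one' := LinearMap.ext fun x => by
        rw [AddMonoidHom.coe_toZModLinearMap, h1, Module.End.one_apply]
      map_mul' := fun g h => LinearMap.ext fun x => by
        rw [Module.End.mul_apply, AddMonoidHom.coe_toZModLinearMap,
          AddMonoidHom.coe_toZModLinearMap, AddMonoidHom.coe_toZModLinearMap, hmul] },
    fun g x => ?_⟩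
  show (AddMonoidHom.toZModLinearMap p (φ g)) x = φ g x
  rw [AddMonoidHom.coe_toZModLinearMap]

private theorem act_aux2 {G : Type u} [Group G] {p : ℕ} [Fact p.Prime] (r : ℕ) (A : Type u)
    [AddCommGroup A] (hx : ∀ x : A, p • x = 0) (hfin : Finite A) (hcard : Nat.card A ≤ p ^ r)
    (φ : G → A →+ A) (h1 : ∀ x, φ 1 x = x) (hmul : ∀ g h x, φ (g * h) x = φ g (φ h x))
    (W : Subgroup G) (hW : ∀ ρ : G →* Matrix.GeneralLinearGroup (Fin r) (ZMod p), W ≤ ρ.ker) :
    ∀ w ∈ W, ∀ x, φ w x = x := by
  let _ : Module (ZMod p) A := AddCommGroup.zmodModule hx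
  obtain ⟨ψ, hψ⟩ := act_lin (p := p) A φ h1 hmul
  intro w hw x
  rw [← hψ, act_aux r A hcard ψ W hW w hw, Module.End.one_apply]

theorem act_triv {G : Type u} [Group G] {p : ℕ} [Fact p.Prime] (r : ℕ) (W M : Subgroup G)
    (hM : M.Normal) (hW : ∀ ρ : G →* Matrix.GeneralLinearGroup (Fin r) (ZMod p), W ≤ ρ.ker)
    (hcomm : ∀ x ∈ M, ∀ y ∈ M, x * y = y * x) (hexp : ∀ x ∈ M, x ^ p = 1)
    (hfin : Finite M) (hcard : Nat.card M ≤ p ^ r) :
    ∀ m ∈ M, ∀ w ∈ W, m * w = w * m := by
  let _ : CommGroup M :=
    { (inferInstance : Group M) with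
      mul_comm := fun x y => Subtype.ext (hcomm x.1 x.2 y.1 y.2) }
  have hx : ∀ x : Additive M, p • x = 0 := by
    intro x
    have h1 : (Additive.toMul x) ^ p = 1 :=
      Subtype.ext (hexp (Additive.toMul x).1 (Additive.toMul x).2)
    exact h1
  let φ : G → (Additive M →+ Additive M) := fun g =>
    { toFun := fun x => Additive.ofMul (⟨g * (Additive.toMul x).1 * g⁻¹,
        hM.conj_mem _ (Additive.toMul x).2 g⟩ : M)
      map_zero' := by
        refine congrArg Additive.ofMul (Subtype.ext ?_)
        show g * (1 : G) * g⁻¹ = 1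
        rw [mul_one, mul_inv_cancel]
      map_add' := fun x y => by
        refine congrArg Additive.ofMul (Subtype.ext ?_)
        show g * ((Additive.toMul x).1 * (Additive.toMul y).1) * g⁻¹ =
          (g * (Additive.toMul x).1 * g⁻¹) * (g * (Additive.toMul y).1 * g⁻¹)
        group }
  have key := act_aux2 r (Additive M) hx hfin hcard φ
    (fun x => by
      refine congrArg Additive.ofMul (Subtype.ext ?_)
      show (1 : G) * (Additive.toMul x).1 * 1⁻¹ = (Additive.toMul x).1
      rw [one_mul, inv_one, mul_one])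
    (fun g h x => by
      refine congrArg Additive.ofMul (Subtype.ext ?_)
      show g * h * (Additive.toMul x).1 * (g * h)⁻¹ = g * (h * (Additive.toMul x).1 * h⁻¹) * g⁻¹
      group) W hW
  intro m hm w hw
  have h1 := key w hw (Additive.ofMul (⟨m, hm⟩ : M))
  have h4 : w * m * w⁻¹ = m := congrArg (fun x : Additive M => (Additive.toMul x).1) h1
  rw [mul_inv_eq_iff_eq_mul] at h4
  exact h4.symm

end LDM
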