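import Pool.Agent.LDM.Red

/-! LDM-PETwo. Powerfully embedded subgroups, p = 2: if `[M,G] ≤ M^4` then `[M^2,G] ≤ (M^2)^4`.

PLAN. Apply `red` with `T = ⁅pw 2 M, ⊤⁆`, `L = pw 4 (pw 2 M)`. In the quotient `H` (write `M` for
`M.map π`): `⁅M,⊤⁆ ≤ pw 4 M`, `z^4 = 1` for all `z ∈ pw 2 M`, `T = ⁅pw 2 M, ⊤⁆` is central of order
2. Claim: `x^2` commutes with `g` for all `x ∈ M`, `g ∈ H` (then `pw 2 M` is central, so `T = ⊥`,
contradiction). (i) For `y ∈ M`, `y^4` commutes with every `g`: `y^2 ∈ pw 2 M`, the commutator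
`t` of `y^2` and `g` is central with `t^2 = 1`, so `g⁻¹ y^4 g = (y^2 t)^2 = y^4`. Hence `pw 4 M` is
central (generated by central elements). (ii) `z^2 = 1` for all `z ∈ pw 4 M`: `pw 4 M` is generated by
the commuting elements `y^4`, and `(y^4)^2 = (y^2)^4 = 1`. (iii) Put `c = x⁻¹ g⁻¹ x g`, so
`c ∈ ⁅M,⊤⁆ ≤ pw 4 M` is central with `c^2 = 1`, and `g⁻¹ x^2 g = (x c)^2 = x^2 c^2 = x^2`. -/

universe u

namespace LDM

open scoped commutatorElement

private theorem comm_sq {H : Type u} [Group H] {a g : H} (hc : ⁅a, g⁆ ∈ Subgroup.center H)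
    (h2 : ⁅a, g⁆ ^ 2 = 1) : a ^ 2 * g = g * a ^ 2 := by
  obtain ⟨t, ht⟩ : ∃ t : H, t = ⁅a, g⁆ := ⟨_, rfl⟩
  have h1 : a * g = t * g * a := by
    rw [ht, commutatorElement_def]
    group
  rw [← ht] at hc h2
  have h3 : ∀ x : H, x * t = t * x := fun x => Subgroup.mem_center_iff.1 hc x
  calc a ^ 2 * g = a * (a * g) := by rw [sq, mul_assoc]
    _ = (a * t) * (g * a) := by rw [h1]; group
    _ = t * (a * g) * a := by rw [h3 a]; group
    _ = t ^ 2 * (g * a ^ 2) := by rw [h1, sq, sq]; simp only [mul_assoc]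
    _ = g * a ^ 2 := by rw [h2, one_mul]

private theorem two_key {H : Type u} [Group H] (N : Subgroup H)
    (h1 : ⁅N, (⊤ : Subgroup H)⁆ ≤ pw 4 N) (h2 : ∀ z ∈ pw 2 N, z ^ 4 = 1)
    (h3 : ⁅pw 2 N, (⊤ : Subgroup H)⁆ ≤ Subgroup.center H)
    (h4 : ∀ t ∈ ⁅pw 2 N, (⊤ : Subgroup H)⁆, t ^ 2 = 1) : pw 2 N ≤ Subgroup.center H := by
  have k1 : pw 4 N ≤ Subgroup.center H := by
    rw [pw_le_iff]
    intro y hy
    rw [Subgroup.mem_center_iff]
    intro g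
    have e1 : ⁅y ^ 2, g⁆ ∈ ⁅pw 2 N, (⊤ : Subgroup H)⁆ :=
      Subgroup.commutator_mem_commutator (pow_mem_pw hy) (Subgroup.mem_top g)
    have e2 := comm_sq (h3 e1) (h4 _ e1)
    have e3 : (y ^ 2) ^ 2 = y ^ 4 := by rw [← pow_mul]
    rw [e3] at e2
    exact e2.symm
  have k2 : ∀ z ∈ pw 4 N, z ^ 2 = 1 := by
    intro z hz
    unfold pw at hz
    induction hz using Subgroup.closure_induction with
    | mem x hx =>
      obtain ⟨y, hy, rfl⟩ := hx
      have e1 := h2 (y ^ 2) (pow_mem_pw hy)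
      have e2 : (y ^ 4) ^ 2 = (y ^ 2) ^ 4 := by rw [← pow_mul, ← pow_mul]
      rw [e2, e1]
    | one => exact one_pow 2
    | mul x y hx hy ihx ihy =>
      have e1 : Commute x y := (Subgroup.mem_center_iff.1 (k1 hy) x)
      rw [e1.mul_pow, ihx, ihy, one_mul]
    | inv x _ ihx => rw [inv_pow, ihx, inv_one]
  rw [pw_le_iff]
  intro x hx
  rw [Subgroup.mem_center_iff]
  intro g
  have e1 : ⁅x, g⁆ ∈ pw 4 N :=
    h1 (Subgroup.commutator_mem_commutator hx (Subgroup.mem_top g))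
  exact (comm_sq (k1 e1) (k2 _ e1)).symm

theorem pe_two {G : Type u} [Group G] [Finite G]
    (hG : IsPGroup 2 G) (M : Subgroup G) (hM : M.Normal) (h : ⁅M, (⊤ : Subgroup G)⁆ ≤ pw 4 M) :
    ⁅pw 2 M, (⊤ : Subgroup G)⁆ ≤ pw 4 (pw 2 M) := by
  have : Fact (Nat.Prime 2) := ⟨Nat.prime_two⟩
  have hP := pw_normal (n := 2) hM
  have hL := pw_normal (n := 4) hP
  have hT : (⁅pw 2 M, (⊤ : Subgroup G)⁆).Normal := by
    have := hP
    infer_instance
  refine red hG _ _ hT hL ?_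
  intro H _ _ π hπ _ hLb hTc hcard
  have htop : (⊤ : Subgroup G).map π = ⊤ := Subgroup.map_top_of_surjective π hπ
  have hTm : (⁅pw 2 M, (⊤ : Subgroup G)⁆).map π = ⁅pw 2 (M.map π), (⊤ : Subgroup H)⁆ := by
    rw [Subgroup.map_commutator, htop, map_pw]
  have h1 : ⁅M.map π, (⊤ : Subgroup H)⁆ ≤ pw 4 (M.map π) := by
    have h' := Subgroup.map_mono (f := π) h
    rw [Subgroup.map_commutator, htop, map_pw] at h'
    exact h'
  rw [map_pw, map_pw] at hLb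
  rw [hTm] at hTc hcard
  have h2 : ∀ z ∈ pw 2 (M.map π), z ^ 4 = 1 := by
    intro z hz
    have h5 : z ^ 4 ∈ pw 4 (pw 2 (M.map π)) := pow_mem_pw hz
    rw [hLb] at h5
    exact Subgroup.mem_bot.1 h5
  have h4 : ∀ t ∈ ⁅pw 2 (M.map π), (⊤ : Subgroup H)⁆, t ^ 2 = 1 := by
    intro t ht
    have h5 := pow_card_eq_one' (x := (⟨t, ht⟩ : ↥(⁅pw 2 (M.map π), (⊤ : Subgroup H)⁆)))
    rw [hcard] at h5
    exact congrArg Subtype.val h5
  have h5 := two_key (M.map π) h1 h2 hTc h4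
  have h6 : ⁅pw 2 (M.map π), (⊤ : Subgroup H)⁆ = ⊥ := by
    rw [Subgroup.commutator_eq_bot_iff_le_centralizer]
    intro z hz
    rw [Subgroup.mem_centralizer_iff]
    intro g _
    exact Subgroup.mem_center_iff.1 (h5 hz) g
  rw [h6, Subgroup.card_bot] at hcard
  omega

end LDM
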