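import Pool.Agent.LDM.PHom

/-! LDM-Step. Consequences of `pow_mul_mod`.

`step_card` PLAN. Let `L = pw p (pw p M)`. The map `M → pw p M ⧸ L`, `x ↦ x^p`, is a homomorphism by
`pow_mul_mod`; it is surjective, because its image is a subgroup containing the generators `y^p` of
`pw p M`; its kernel contains `pw p M` (for `z ∈ pw p M`, `z^p ∈ L`). So
`[pw p M : L] ≤ [M : pw p M]` (all finite, `G` is finite).

`step_gen` PLAN. Let `L = pw p (pw p M)` and let `S = pw (n * p) ⊤ ⊔ L` (`L` is normal, so elements are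
products). It suffices that `y^p ∈ S` for `y ∈ M` (`pw_le_iff`). Write `y = z m`, `z ∈ pw n ⊤`,
`m ∈ pw p M` (`Subgroup.mem_sup`, `pw p M` normal). By `pow_mul_mod` (`z ∈ M` by `hn`, `m ∈ M`)
`y^p ≡ z^p m^p ≡ z^p` modulo `L`. For `z ∈ pw n ⊤ ≤ M` show `z^p ∈ S` by
`Subgroup.closure_induction`: for a generator `z = x^n`: `z^p = x^(n*p) ∈ pw (n*p) ⊤`; for a product
use `pow_mul_mod`; inverses: `(z⁻¹)^p = (z^p)⁻¹`. -/

universe u

namespace LDM

private theorem step_mul {G : Type u} [Group G] {p : ℕ} [Fact p.Prime] {M : Subgroup G}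
    (hM : M.Normal) (h1 : ⁅M, (⊤ : Subgroup G)⁆ ≤ pw (qq p) M)
    (h2 : ⁅pw p M, (⊤ : Subgroup G)⁆ ≤ pw (qq p) (pw p M)) {x y : G} (hx : x ∈ M) (hy : y ∈ M) :
    ∃ l ∈ pw p (pw p M), (x * y) ^ p = x ^ p * y ^ p * l :=
  ⟨_, pow_mul_mod M hM h1 h2 x hx y hy, by group⟩

theorem step_card {G : Type u} [Group G] [Finite G] {p : ℕ} [Fact p.Prime] (M : Subgroup G)
    (hM : M.Normal) (h1 : ⁅M, (⊤ : Subgroup G)⁆ ≤ pw (qq p) M)
    (h2 : ⁅pw p M, (⊤ : Subgroup G)⁆ ≤ pw (qq p) (pw p M)) :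
    (pw p (pw p M)).relIndex (pw p M) ≤ (pw p M).relIndex M := by
  have hL : (pw p (pw p M)).Normal := pw_normal (pw_normal hM)
  obtain ⟨φ, hφ⟩ : ∃ φ : M →* G ⧸ pw p (pw p M),
      ∀ x : M, φ x = QuotientGroup.mk' (pw p (pw p M)) ((x : G) ^ p) := by
    refine ⟨MonoidHom.mk' (fun x : M => QuotientGroup.mk' (pw p (pw p M)) ((x : G) ^ p))
      (fun x y => ?_), fun _ => rfl⟩
    obtain ⟨l, hl, he⟩ := step_mul hM h1 h2 x.2 y.2
    rw [Subgroup.coe_mul, he, map_mul, map_mul]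
    have h3 : QuotientGroup.mk' (pw p (pw p M)) l = 1 := by
      rw [← MonoidHom.mem_ker, QuotientGroup.ker_mk']
      exact hl
    rw [h3, mul_one]
  have e1 : (pw p (pw p M)).relIndex (pw p M) =
      Nat.card ((pw p M).map (QuotientGroup.mk' (pw p (pw p M)))) := by
    have h3 := Subgroup.relIndex_ker (K := pw p M) (QuotientGroup.mk' (pw p (pw p M)))
    rwa [QuotientGroup.ker_mk'] at h3
  have e2 : (pw p M).map (QuotientGroup.mk' (pw p (pw p M))) ≤ φ.range := by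
    rw [Subgroup.map_le_iff_le_comap, pw_le_iff]
    intro y hy
    rw [Subgroup.mem_comap]
    exact ⟨⟨y, hy⟩, hφ ⟨y, hy⟩⟩
  have e3 : (pw p M).subgroupOf M ≤ φ.ker := by
    intro x hx
    rw [Subgroup.mem_subgroupOf] at hx
    rw [MonoidHom.mem_ker, hφ, ← MonoidHom.mem_ker, QuotientGroup.ker_mk']
    exact pow_mem_pw hx
  rw [e1]
  refine (Subgroup.card_le_of_le e2).trans ?_
  rw [← Subgroup.index_ker φ]
  refine Nat.le_of_dvd (Nat.pos_of_ne_zero ?_) (Subgroup.index_dvd_of_le e3)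
  exact Subgroup.index_ne_zero_of_finite

theorem step_gen {G : Type u} [Group G] {p : ℕ} [Fact p.Prime] (M : Subgroup G)
    (hM : M.Normal) (h1 : ⁅M, (⊤ : Subgroup G)⁆ ≤ pw (qq p) M)
    (h2 : ⁅pw p M, (⊤ : Subgroup G)⁆ ≤ pw (qq p) (pw p M)) (n : ℕ)
    (hn : pw n (⊤ : Subgroup G) ≤ M) (hg : M ≤ pw n ⊤ ⊔ pw p M) :
    pw p M ≤ pw (n * p) ⊤ ⊔ pw p (pw p M) := by
  have hN : (pw p M).Normal := pw_normal hM
  have hLS : pw p (pw p M) ≤ pw (n * p) ⊤ ⊔ pw p (pw p M) := le_sup_right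
  have key : ∀ z ∈ pw n (⊤ : Subgroup G), z ^ p ∈ pw (n * p) ⊤ ⊔ pw p (pw p M) := by
    intro z hz
    unfold pw at hz
    induction hz using Subgroup.closure_induction with
    | mem z hz =>
      obtain ⟨x, _, rfl⟩ := hz
      rw [← pow_mul]
      exact (le_sup_left : pw (n * p) ⊤ ≤ pw (n * p) ⊤ ⊔ pw p (pw p M))
        (pow_mem_pw (Subgroup.mem_top x))
    | one =>
      rw [one_pow]
      exact Subgroup.one_mem _
    | mul x y hx hy ihx ihy =>
      obtain ⟨l, hl, he⟩ := step_mul hM h1 h2 (hn hx) (hn hy)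
      rw [he]
      exact Subgroup.mul_mem _ (Subgroup.mul_mem _ ihx ihy) (hLS hl)
    | inv x _ ihx =>
      rw [inv_pow]
      exact Subgroup.inv_mem _ ihx
  rw [pw_le_iff]
  intro y hy
  obtain ⟨z, hz, m, hm, rfl⟩ := Subgroup.mem_sup_of_normal_right.1 (hg hy)
  obtain ⟨l, hl, he⟩ := step_mul hM h1 h2 (hn hz) (pw_le p M hm)
  rw [he]
  exact Subgroup.mul_mem _ (Subgroup.mul_mem _ (key z hz) (hLS (pow_mem_pw hm))) (hLS hl)

end LDM
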