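import Pool.Agent.LDM.PEOdd
import Pool.Agent.LDM.PETwo
import Pool.Agent.LDM.Step

/-! LDM-Count. A powerful finite p-group with `[G : G^p] ≤ p^r` and `x^(p^k) = 1` has order at most
`p^(k*r)`.

PLAN. Let `M 0 = ⊤`, `M (i+1) = pw p (M i)`. By induction with `pe_odd` / `pe_two` (`qq p = p` for
odd p, `qq 2 = 4`) every `M i` is normal with `⁅M i, ⊤⁆ ≤ pw (qq p) (M i)`. By `step_card` all the
indices `(M (i+1)).relIndex (M i)` are at most `(M 1).relIndex (M 0) = (pw p ⊤).index ≤ p^r`. By
induction with `step_gen` (`n = p^i`; `pw (p^i) ⊤ ≤ M i` by induction: `x^(p^(i+1)) = (x^(p^i))^p`)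
`M i ≤ pw (p^i) ⊤ ⊔ M (i+1)`. For `i = k`: `pw (p^k) ⊤ = ⊥` by `hk`, so `M k ≤ pw p (M k)` and
`M k = ⊥` by `pw_self`. Finally `Nat.card G = (M k).index` is the product of the `relIndex`
(`Subgroup.relIndex_mul_relIndex` / `Subgroup.relIndex_mul_index`), at most `(p^r)^k`. -/

universe u

namespace LDM

/-- the series of iterated powers -/
private def ser {G : Type u} [Group G] (p : ℕ) : ℕ → Subgroup G
  | 0 => ⊤
  | i + 1 => pw p (ser p i)

private theorem ser_normal {G : Type u} [Group G] (p : ℕ) :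
    ∀ i : ℕ, (ser p i : Subgroup G).Normal
  | 0 => by
    unfold ser
    infer_instance
  | i + 1 => pw_normal (ser_normal p i)

private theorem ser_pe {G : Type u} [Group G] [Finite G] {p : ℕ} [Fact p.Prime]
    (hG : IsPGroup p G) (h1 : ⁅(⊤ : Subgroup G), (⊤ : Subgroup G)⁆ ≤ pw (qq p) ⊤) :
    ∀ i : ℕ, ⁅(ser p i : Subgroup G), (⊤ : Subgroup G)⁆ ≤ pw (qq p) (ser p i)
  | 0 => h1
  | i + 1 => by
    have ih := ser_pe hG h1 i
    have hn : (ser p i : Subgroup G).Normal := ser_normal p i
    by_cases h2 : p = 2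
    · subst h2
      have h4 : qq 2 = 4 := by unfold qq; simp
      rw [h4] at ih ⊢
      exact pe_two hG _ hn ih
    · have h4 : qq p = p := by unfold qq; rw [if_neg h2]
      rw [h4] at ih ⊢
      exact pe_odd h2 hG _ hn ih

theorem card_le {G : Type u} [Group G] [Finite G] {p : ℕ} [Fact p.Prime] (hG : IsPGroup p G)
    (h1 : ⁅(⊤ : Subgroup G), (⊤ : Subgroup G)⁆ ≤ pw (qq p) ⊤) (r : ℕ)
    (hr : (pw p (⊤ : Subgroup G)).index ≤ p ^ r) (k : ℕ) (hk : ∀ x : G, x ^ (p ^ k) = 1) :
    Nat.card G ≤ p ^ (k * r) := by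
  have hpe := ser_pe hG h1
  have hrel : ∀ i : ℕ, (ser p (i + 1) : Subgroup G).relIndex (ser p i) ≤ p ^ r := by
    intro i
    induction i with
    | zero =>
      have h2 : (ser p (0 + 1) : Subgroup G).relIndex (ser p 0) = (pw p (⊤ : Subgroup G)).index :=
        Subgroup.relIndex_top_right _
      rw [h2]
      exact hr
    | succ i ih => exact le_trans (step_card _ (ser_normal p i) (hpe i) (hpe (i + 1))) ih
  have hle : ∀ i : ℕ, pw (p ^ i) (⊤ : Subgroup G) ≤ ser p i := by
    intro i
    induction i with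
    | zero => exact le_top
    | succ i ih =>
      rw [pw_le_iff]
      intro y _
      rw [pow_succ, pow_mul]
      exact pow_mem_pw (ih (pow_mem_pw (Subgroup.mem_top y)))
  have hgen : ∀ i : ℕ, (ser p i : Subgroup G) ≤ pw (p ^ i) ⊤ ⊔ ser p (i + 1) := by
    intro i
    induction i with
    | zero =>
      refine le_trans ?_ le_sup_left
      intro x _
      have h2 : x ^ (p ^ 0) ∈ pw (p ^ 0) (⊤ : Subgroup G) := pow_mem_pw (Subgroup.mem_top x)
      rwa [pow_zero, pow_one] at h2
    | succ i ih =>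
      have h2 := step_gen (ser p i) (ser_normal p i) (hpe i) (hpe (i + 1)) (p ^ i) (hle i) ih
      rw [← pow_succ] at h2
      exact h2
  have hbot : (ser p k : Subgroup G) = ⊥ := by
    refine pw_self hG _ ?_
    have h2 : pw (p ^ k) (⊤ : Subgroup G) ≤ ⊥ := by
      rw [pw_le_iff]
      intro y _
      rw [hk y]
      exact Subgroup.one_mem _
    exact le_trans (hgen k) (sup_le (le_trans h2 bot_le) le_rfl)
  have hind : ∀ i : ℕ, (ser p i : Subgroup G).index ≤ p ^ (i * r) := by
    intro i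
    induction i with
    | zero =>
      have h2 : (ser p 0 : Subgroup G).index = 1 := Subgroup.index_top
      rw [h2, zero_mul, pow_zero]
    | succ i ih =>
      have h2 : (ser p (i + 1) : Subgroup G) ≤ ser p i := pw_le p _
      rw [← Subgroup.relIndex_mul_index h2]
      calc (ser p (i + 1) : Subgroup G).relIndex (ser p i) * (ser p i : Subgroup G).index
          ≤ p ^ r * p ^ (i * r) := Nat.mul_le_mul (hrel i) ih
        _ = p ^ ((i + 1) * r) := by rw [← pow_add]; congr 1; ring
  have h3 := hind k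
  rw [hbot, Subgroup.index_bot] at h3
  exact h3

end LDM
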