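import Mathlib

/-! Project LDM (MP_fad14a_al, dimension of finitely generated groups): definitions. -/

universe u

namespace LDM

/-- The minimal number of generators of the abelianization of a group `A`
(infinite if the abelianization is not finitely generated). -/
noncomputable def delta (A : Type u) [Group A] : ℕ∞ :=
  ⨅ (S : Finset (Abelianization A))
    (_ : Subgroup.closure (S : Set (Abelianization A)) = ⊤), (S.card : ℕ∞)

/-- The dimension of `H_1(A; F_p)`: the supremum of the `n` such that `A` maps onto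
the group `(Z/p)^n`. -/
noncomputable def deltaP (p : ℕ) (A : Type u) [Group A] : ℕ∞ :=
  ⨆ (n : ℕ) (_ : ∃ f : A →* Multiplicative (Fin n → ZMod p), Function.Surjective f), (n : ℕ∞)

/-- The normal subgroups of finite index. -/
def NS {Γ : Type u} [Group Γ] (A : Subgroup Γ) : Prop := A.Normal ∧ A.FiniteIndex

/-- The dimension of a group: the lower limit of `delta A` over the normal subgroups `A` of
finite index. -/
noncomputable def Dim (Γ : Type u) [Group Γ] : ℕ∞ :=
  ⨆ (N₀ : Subgroup Γ) (_ : NS N₀), ⨅ (A : Subgroup Γ) (_ : NS A ∧ A ≤ N₀), delta A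

/-- The `p`-dimension of a group: the lower limit of `dim H_1(A; F_p)` over the normal subgroups
`A` of finite index. -/
noncomputable def DimP (p : ℕ) (Γ : Type u) [Group Γ] : ℕ∞ :=
  ⨆ (N₀ : Subgroup Γ) (_ : NS N₀), ⨅ (A : Subgroup Γ) (_ : NS A ∧ A ≤ N₀), deltaP p A

/-- The finite `p`-quotients `P` of `B` satisfy `|P| ≤ C exp(P)^s` for some constant `C`
(`e` is any positive exponent of `P`). -/
def PGrowth (p : ℕ) (B : Type u) [Group B] (s : ℝ) : Prop :=
  ∃ C : ℝ, ∀ A : Subgroup B, A.Normal → (∃ m : ℕ, A.index = p ^ m) →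
    ∀ e : ℕ, 0 < e → (∀ x : B, x ^ e ∈ A) → (A.index : ℝ) ≤ C * (e : ℝ) ^ s

/-- The subgroup generated by the `n`-th powers of the elements of `H`. -/
def pw {G : Type u} [Group G] (n : ℕ) (H : Subgroup G) : Subgroup G :=
  Subgroup.closure {x | ∃ y ∈ H, x = y ^ n}

/-- The subgroup `H^p [H,H]`. -/
def Fr {G : Type u} [Group G] (p : ℕ) (H : Subgroup G) : Subgroup G := pw p H ⊔ ⁅H, H⁆

/-- `p` for odd `p`, and `4` for `p = 2`. -/
def qq (p : ℕ) : ℕ := if p = 2 then 4 else p

section basic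

variable {G : Type u} [Group G]

theorem pow_mem_pw {n : ℕ} {H : Subgroup G} {y : G} (hy : y ∈ H) : y ^ n ∈ pw n H :=
  Subgroup.subset_closure ⟨y, hy, rfl⟩

theorem pw_le_iff {n : ℕ} {H K : Subgroup G} : pw n H ≤ K ↔ ∀ y ∈ H, y ^ n ∈ K := by
  unfold pw
  rw [Subgroup.closure_le]
  constructor
  · intro h y hy
    exact h ⟨y, hy, rfl⟩
  · rintro h x ⟨y, hy, rfl⟩
    exact h y hy

theorem pw_le (n : ℕ) (H : Subgroup G) : pw n H ≤ H :=
  pw_le_iff.2 fun _ hy => H.pow_mem hy n

theorem pw_mono {n : ℕ} {H K : Subgroup G} (h : H ≤ K) : pw n H ≤ pw n K :=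
  pw_le_iff.2 fun _ hy => pow_mem_pw (h hy)

theorem pw_normal {n : ℕ} {H : Subgroup G} (hH : H.Normal) : (pw n H).Normal := by
  refine ⟨fun x hx g => ?_⟩
  have h : (pw n H).map (MulAut.conj g).toMonoidHom ≤ pw n H := by
    rw [Subgroup.map_le_iff_le_comap, pw_le_iff]
    intro y hy
    rw [Subgroup.mem_comap]
    change g * y ^ n * g⁻¹ ∈ pw n H
    rw [← conj_pow]
    exact pow_mem_pw (hH.conj_mem y hy g)
  exact h (Subgroup.mem_map_of_mem _ hx)

theorem map_pw {G' : Type u} [Group G'] (f : G →* G') (n : ℕ) (H : Subgroup G) :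
    (pw n H).map f = pw n (H.map f) := by
  unfold pw
  rw [MonoidHom.map_closure]
  congr 1
  ext x
  constructor
  · rintro ⟨z, ⟨y, hy, rfl⟩, rfl⟩
    exact ⟨f y, Subgroup.mem_map_of_mem f hy, map_pow f y n⟩
  · rintro ⟨y, hy, rfl⟩
    obtain ⟨z, hz, rfl⟩ := Subgroup.mem_map.1 hy
    exact ⟨z ^ n, ⟨z, hz, rfl⟩, map_pow f z n⟩

theorem Fr_le (p : ℕ) (H : Subgroup G) : Fr p H ≤ H :=
  sup_le (pw_le p H) (Subgroup.commutator_le.2 fun x hx y hy =>
    H.mul_mem (H.mul_mem (H.mul_mem hx hy) (H.inv_mem hx)) (H.inv_mem hy))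

theorem Fr_normal {p : ℕ} {H : Subgroup G} (hH : H.Normal) : (Fr p H).Normal := by
  have := hH
  have := pw_normal (n := p) hH
  unfold Fr
  infer_instance

theorem map_Fr {G' : Type u} [Group G'] (f : G →* G') (p : ℕ) (H : Subgroup G) :
    (Fr p H).map f = Fr p (H.map f) := by
  unfold Fr
  rw [Subgroup.map_sup, map_pw, Subgroup.map_commutator]

end basic

end LDM
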