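import Pool.Agent.LDM.Phi

/-! LDM-Fg. The characteristic finite-index subgroup killed by all representations of degree `r`
over `F_p`.

PLAN. `W = ⨅ ρ, ρ.ker` over all `ρ : B →* GL (Fin r) (ZMod p)`. `B` is finitely generated and
`GL (Fin r) (ZMod p)` is finite, so there are finitely many `ρ` (a homomorphism is determined by its
values on a finite generating set; look for `Finite (_ →* _)` for a finitely generated group, or
inject into functions from the generating finset), and `W` is a finite intersection of kernels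
(finite index, `Subgroup.finiteIndex_iInf`). `W` is characteristic: for an automorphism `φ`, `ρ.comp φ`
runs over the same family. `V = W` if `p ≠ 2`, and `V = pw 2 W` if `p = 2`: `pw 2 W` is characteristic
(`map_pw`), and contains `⁅W,W⁆` (`x y x⁻¹ y⁻¹ = x^2 (x⁻¹ y)^2 y⁻²`), so `pw 2 W = Fr 2 W`, which has
finite index by `fr_finiteIndex`. -/

universe u

namespace LDM

private theorem finite_hom (B : Type u) [Group B] [hB : Group.FG B] (F : Type) [Group F]
    [Finite F] : Finite (B →* F) := by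
  obtain ⟨S, hS⟩ := Group.fg_def.1 hB
  let g : (B →* F) → ({x // x ∈ S} → F) := fun ρ s => ρ s.1
  refine Finite.of_injective g ?_
  intro ρ σ h
  refine MonoidHom.eq_of_eqOn_dense hS ?_
  intro x hx
  exact congrFun h ⟨x, hx⟩

private theorem comm_le_pw {G : Type u} [Group G] (W : Subgroup G) : ⁅W, W⁆ ≤ pw 2 W := by
  rw [Subgroup.commutator_le]
  intro x hx y hy
  have h1 : x ^ 2 ∈ pw 2 W := pow_mem_pw hx
  have h2 : (x⁻¹ * y) ^ 2 ∈ pw 2 W := pow_mem_pw (W.mul_mem (W.inv_mem hx) hy)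
  have h3 : (y⁻¹) ^ 2 ∈ pw 2 W := pow_mem_pw (W.inv_mem hy)
  have h4 : x * y * x⁻¹ * y⁻¹ = x ^ 2 * (x⁻¹ * y) ^ 2 * (y⁻¹) ^ 2 := by
    rw [pow_two, pow_two, pow_two]
    group
  show x * y * x⁻¹ * y⁻¹ ∈ pw 2 W
  rw [h4]
  exact (pw 2 W).mul_mem ((pw 2 W).mul_mem h1 h2) h3

theorem exists_VW (B : Type u) [Group B] [Group.FG B] (p r : ℕ) [Fact p.Prime] :
    ∃ V W : Subgroup B, V.Characteristic ∧ W.Characteristic ∧ V.FiniteIndex ∧ V ≤ W ∧
      (p = 2 → V ≤ pw 2 W) ∧
      ∀ ρ : B →* Matrix.GeneralLinearGroup (Fin r) (ZMod p), W ≤ ρ.ker := by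
  have hGL : Finite (Matrix.GeneralLinearGroup (Fin r) (ZMod p)) := by
    unfold Matrix.GeneralLinearGroup
    infer_instance
  have hfin : Finite (B →* Matrix.GeneralLinearGroup (Fin r) (ZMod p)) :=
    finite_hom B (Matrix.GeneralLinearGroup (Fin r) (ZMod p))
  let W : Subgroup B := ⨅ ρ : B →* Matrix.GeneralLinearGroup (Fin r) (ZMod p), ρ.ker
  have hWle : ∀ ρ : B →* Matrix.GeneralLinearGroup (Fin r) (ZMod p), W ≤ ρ.ker :=
    fun ρ => iInf_le _ ρ
  have hWfin : W.FiniteIndex := Subgroup.finiteIndex_iInf fun ρ => inferInstance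
  have hWchar : W.Characteristic := by
    rw [Subgroup.characteristic_iff_le_comap]
    intro φ x hx
    rw [Subgroup.mem_comap]
    have h1 : ∀ ρ : B →* Matrix.GeneralLinearGroup (Fin r) (ZMod p), φ.toMonoidHom x ∈ ρ.ker := by
      intro ρ
      have h2 := hWle (ρ.comp φ.toMonoidHom) hx
      rw [MonoidHom.mem_ker] at h2 ⊢
      exact h2
    exact (Subgroup.mem_iInf).2 h1
  by_cases hp : p = 2
  · refine ⟨pw 2 W, W, ?_, hWchar, ?_, pw_le 2 W, fun _ => le_rfl, hWle⟩
    · rw [Subgroup.characteristic_iff_map_eq]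
      intro φ
      rw [map_pw, (Subgroup.characteristic_iff_map_eq.1 hWchar) φ]
    · have : Fact (Nat.Prime 2) := ⟨Nat.prime_two⟩
      have h1 : (Fr 2 W).FiniteIndex := (fr_finiteIndex 2 W hWfin).2
      have h2 : Fr 2 W ≤ pw 2 W := sup_le le_rfl (comm_le_pw W)
      exact Subgroup.finiteIndex_of_le h2
  · exact ⟨W, W, hWchar, hWchar, hWfin, le_rfl, fun h => absurd h hp, hWle⟩

end LDM
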