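import Pool.Agent.LDM.Quot
import Pool.Agent.LDM.Fg

/-! LDM-GrowN. If `DimP p Γ ≤ r` then the finite p-quotients `P` of every normal subgroup `B` of finite
index satisfy `|P| ≤ C exp(P)^r`.

PLAN. `B` is finitely generated (`fr_finiteIndex`). Take `V, W` from `exists_VW B p r`. `V.map B.subtype`
is normal in `Γ` (`V` characteristic in the normal subgroup `B`: conjugation by `g ∈ Γ` restricts to
an automorphism of `B`; look for `Subgroup.Characteristic` + `Normal` lemmas such as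
`ConjAct.normal_of_characteristic_of_normal`) and of finite index in `Γ`. From `h` (with
`N₀ = V.map B.subtype`; `le_iSup₂`, then the infimum of values in `ℕ∞` is at most `r < r + 1`, so some
value is: `iInf_lt_iff`, `ENat` order) there is `A₁` with `NS A₁`, `A₁ ≤ V.map B.subtype`,
`deltaP p A₁ ≤ r`. Put `C = (A₁.relIndex B : ℝ)`. Let `A` be normal in `B` of index `p^m`,
`e > 0`, `x^e ∈ A` for `x : B`. Let `P = B ⧸ A`, `π = QuotientGroup.mk' A`, `N₁ = A₁.subgroupOf B`
(normal in `B`, `≤ V`), `N = N₁.map π`. `P` is a finite p-group (`IsPGroup.of_card`), `W.map π`,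
`V.map π`, `N` are as in `quot_bound`: for `ρ : P →* GL`, `ρ.comp π` kills `W`; `V.map π ≤ pw 2 (W.map π)`
by `map_pw`; `(Fr p N).relIndex N ≤ p^r`: by `fr_relIndex` (for `N` in `P`, finite so FG) it is `p^n`
with `n = deltaP p N ≤ deltaP p A₁ ≤ r` (`deltaP_le_of_surj` for the surjection `A₁ ≃ N₁ → N`). So
`Nat.card N ≤ e^r`, and `A.index = Nat.card P = N.index * Nat.card N ≤ N₁.index * e^r`
(`N.index ≤ N₁.index`: index of the image under a surjection divides), with
`N₁.index = A₁.relIndex B`. Convert to reals: `(e:ℝ)^(r:ℝ) = e^r` (`Real.rpow_natCast`). -/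

universe u

namespace LDM

theorem grow_normal {Γ : Type u} [Group Γ] [Group.FG Γ] (p : ℕ) [Fact p.Prime] (r : ℕ)
    (h : DimP p Γ ≤ r) (B : Subgroup Γ) (hB : NS B) : PGrowth p B (r : ℝ) := by
  have hBn : B.Normal := hB.1
  have hBf : B.FiniteIndex := hB.2
  have hBfg : Group.FG B := (Group.fg_iff_subgroup_fg B).2 (fr_finiteIndex p B hBf).1
  obtain ⟨V, W, hV, hW, hVf, hVW, h2, hρ⟩ := exists_VW B p r
  have hN₀ : NS (V.map B.subtype) := by
    refine ⟨inferInstance, ⟨?_⟩⟩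
    rw [Subgroup.index_map_subtype]
    exact mul_ne_zero hVf.index_ne_zero hBf.index_ne_zero
  obtain ⟨A₁, hA₁, hA₁V, hA₁d⟩ : ∃ A₁ : Subgroup Γ, NS A₁ ∧ A₁ ≤ V.map B.subtype ∧
      deltaP p A₁ ≤ r := by
    have h3 : (⨅ (A : Subgroup Γ) (_ : NS A ∧ A ≤ V.map B.subtype), deltaP p A) ≤ r :=
      (le_iSup₂ (f := fun (N₀ : Subgroup Γ) (_ : NS N₀) =>
        ⨅ (A : Subgroup Γ) (_ : NS A ∧ A ≤ N₀), deltaP p A) _ hN₀).trans h
    have h4 : (⨅ (A : Subgroup Γ) (_ : NS A ∧ A ≤ V.map B.subtype), deltaP p A) < (r : ℕ∞) + 1 :=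
      (ENat.lt_add_one_iff (ENat.natCast_ne_top r)).2 h3
    obtain ⟨A₁, h5⟩ := iInf_lt_iff.1 h4
    obtain ⟨h6, h7⟩ := iInf_lt_iff.1 h5
    exact ⟨A₁, h6.1, h6.2, (ENat.lt_add_one_iff (ENat.natCast_ne_top r)).1 h7⟩
  have hA₁B : A₁ ≤ B := by
    intro x hx
    obtain ⟨y, _, rfl⟩ := Subgroup.mem_map.1 (hA₁V hx)
    exact y.2
  have hA₁n : A₁.Normal := hA₁.1
  have hA₁f : A₁.FiniteIndex := hA₁.2
  obtain ⟨N₁, hN₁⟩ : ∃ N₁ : Subgroup B, N₁ = A₁.subgroupOf B := ⟨_, rfl⟩
  have hN₁n : N₁.Normal := by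
    rw [hN₁]
    infer_instance
  have hN₁f : N₁.FiniteIndex := by
    rw [hN₁]
    infer_instance
  have hN₁V : N₁ ≤ V := by
    intro x hx
    rw [hN₁, Subgroup.mem_subgroupOf] at hx
    obtain ⟨y, hy, hyx⟩ := Subgroup.mem_map.1 (hA₁V hx)
    have h3 : y = x := Subtype.ext hyx
    rwa [← h3]
  have hN₁d : deltaP p N₁ ≤ r := by
    rw [hN₁, deltaP_congr p (Subgroup.subgroupOfEquivOfLe hA₁B)]
    exact hA₁d
  refine ⟨(N₁.index : ℝ), ?_⟩
  rintro A hA ⟨m, hm⟩ e he hx
  have hp : p.Prime := Fact.out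
  have hAf : A.FiniteIndex := ⟨by rw [hm]; exact pow_ne_zero _ hp.ne_zero⟩
  have hfin : Finite (B ⧸ A) := inferInstance
  have hcard : Nat.card (B ⧸ A) = A.index := rfl
  have hPG : IsPGroup p (B ⧸ A) := IsPGroup.of_card (hcard.trans hm)
  have hsurj : Function.Surjective (QuotientGroup.mk' A) := QuotientGroup.mk'_surjective A
  have hVn : V.Normal := inferInstance
  have hWn : W.Normal := inferInstance
  have hbound : Nat.card (N₁.map (QuotientGroup.mk' A)) ≤ e ^ r := by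
    refine quot_bound hPG r (W.map (QuotientGroup.mk' A)) (V.map (QuotientGroup.mk' A))
      (N₁.map (QuotientGroup.mk' A)) (hWn.map _ hsurj) (hN₁n.map _ hsurj) (Subgroup.map_mono hN₁V)
      (Subgroup.map_mono hVW) ?_ ?_ ?_ e he ?_
    · intro hp2
      rw [← map_pw]
      exact Subgroup.map_mono (h2 hp2)
    · intro ρ
      rw [Subgroup.map_le_iff_le_comap]
      intro w hw
      have h3 := hρ (ρ.comp (QuotientGroup.mk' A)) hw
      exact h3
    · obtain ⟨n, hn1, hn2⟩ := fr_relIndex p (N₁.map (QuotientGroup.mk' A))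
        ((Group.fg_iff_subgroup_fg _).1 inferInstance)
      rw [hn1]
      apply Nat.pow_le_pow_right hp.pos
      have h3 : deltaP p (N₁.map (QuotientGroup.mk' A)) ≤ deltaP p N₁ :=
        deltaP_le_of_surj p ((QuotientGroup.mk' A).subgroupMap N₁)
          ((QuotientGroup.mk' A).subgroupMap_surjective N₁)
      have h4 : (n : ℕ∞) ≤ r := by
        rw [← hn2]
        exact h3.trans hN₁d
      exact_mod_cast h4
    · intro x
      obtain ⟨b, rfl⟩ := hsurj x
      rw [← map_pow]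
      exact (QuotientGroup.eq_one_iff _).2 (hx b)
  have h5 : A.index = (N₁.map (QuotientGroup.mk' A)).index * Nat.card (N₁.map (QuotientGroup.mk' A)) := by
    rw [Subgroup.index_mul_card]
    rfl
  have h6 : (N₁.map (QuotientGroup.mk' A)).index ≤ N₁.index :=
    Nat.le_of_dvd (Nat.pos_of_ne_zero hN₁f.index_ne_zero) (Subgroup.index_map_dvd N₁ hsurj)
  have h7 : A.index ≤ N₁.index * e ^ r := by
    rw [h5]
    exact Nat.mul_le_mul h6 hbound
  rw [Real.rpow_natCast]
  exact_mod_cast h7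

end LDM
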