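import Pool.Agent.LDM.Defs

/-! LDM-GrowS. `PGrowth` passes from a finite-index subgroup to the group, and is an isomorphism
invariant.

PLAN for `pgrowth_sup`. `B₀ ≤ B` in `G`, `i = B₀.relIndex B ≠ 0`. Let `C₀` be a constant for `B₀`, and
`C = i * max C₀ 0`. Let `A` be normal in `↥B` of index `p^m`, `x^e ∈ A` for `x : B`. Let
`A₀ : Subgroup ↥B₀` be the comap of `A` under the inclusion `Subgroup.inclusion h : ↥B₀ →* ↥B`: it is
normal, `x^e ∈ A₀`, and its index is a power of `p`, since `↥B₀ ⧸ A₀` embeds in `↥B ⧸ A` (its order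
divides `p^m`; `Nat.dvd_prime_pow`; `Subgroup.index_comap`, `Subgroup.relIndex_dvd_index_of_normal`).
And `A.index ≤ i * A₀.index`: the image of `B₀` in `B ⧸ A` has order `A₀.index` and index at most
`i`. So `A.index ≤ i * C₀ * e^s ≤ C * e^s`.
`pgrowth_iso`: transport along `f : B ≃* B'` (comap of `A` under `f`). -/

universe u

namespace LDM

theorem pgrowth_sup {G : Type u} [Group G] (p : ℕ) [Fact p.Prime] (s : ℝ) (hs : 0 ≤ s)
    (B₀ B : Subgroup G) (h : B₀ ≤ B) (hi : B₀.relIndex B ≠ 0) (hg : PGrowth p B₀ s) :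
    PGrowth p B s := by
  obtain ⟨C₀, hC⟩ := hg
  refine ⟨(B₀.relIndex B : ℝ) * C₀, fun A hA hm e he hx => ?_⟩
  obtain ⟨m, hm⟩ := hm
  have hR : (Subgroup.inclusion h).range.index = B₀.relIndex B := by
    rw [Subgroup.inclusion_range]
    rfl
  set R : Subgroup ↥B := (Subgroup.inclusion h).range with hRdef
  have h0 : (A.comap (Subgroup.inclusion h)).index = A.relIndex R := Subgroup.index_comap A _
  have h1 : ∃ n : ℕ, (A.comap (Subgroup.inclusion h)).index = p ^ n := by
    have h2 : (A.comap (Subgroup.inclusion h)).index ∣ p ^ m := by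
      rw [h0, ← hm]
      exact Subgroup.relIndex_dvd_index_of_normal A R
    obtain ⟨n, _, hn⟩ := (Nat.dvd_prime_pow (Fact.out : p.Prime)).1 h2
    exact ⟨n, hn⟩
  have h3 := hC (A.comap (Subgroup.inclusion h)) (hA.comap _) h1 e he (fun x => by
    rw [Subgroup.mem_comap, map_pow]
    exact hx _)
  have h4 : A.index ≤ B₀.relIndex B * (A.comap (Subgroup.inclusion h)).index := by
    have h5 : (A ⊓ R).index = A.relIndex R * R.index := by
      rw [← Subgroup.relIndex_mul_index (inf_le_right : A ⊓ R ≤ R), Subgroup.inf_relIndex_right]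
    have h6 : (A ⊓ R).index ≠ 0 := by
      rw [h5, hR, ← h0]
      obtain ⟨n, hn⟩ := h1
      rw [hn]
      exact Nat.mul_ne_zero (pow_ne_zero _ (Fact.out : p.Prime).ne_zero) hi
    have h7 : A.index ∣ (A ⊓ R).index := Subgroup.index_dvd_of_le inf_le_left
    have h8 := Nat.le_of_dvd (Nat.pos_of_ne_zero h6) h7
    rw [h5, hR, ← h0, mul_comm] at h8
    exact h8
  have h9 : (A.index : ℝ) ≤ (B₀.relIndex B : ℝ) * ((A.comap (Subgroup.inclusion h)).index : ℝ) := by
    exact_mod_cast h4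
  calc (A.index : ℝ) ≤ (B₀.relIndex B : ℝ) * ((A.comap (Subgroup.inclusion h)).index : ℝ) := h9
    _ ≤ (B₀.relIndex B : ℝ) * (C₀ * (e : ℝ) ^ s) :=
        mul_le_mul_of_nonneg_left h3 (Nat.cast_nonneg _)
    _ = (B₀.relIndex B : ℝ) * C₀ * (e : ℝ) ^ s := by ring

theorem pgrowth_iso {B B' : Type u} [Group B] [Group B'] (p : ℕ) (s : ℝ) (f : B ≃* B')
    (hg : PGrowth p B s) : PGrowth p B' s := by
  obtain ⟨C, hC⟩ := hg
  refine ⟨C, fun A hA hm e he hx => ?_⟩
  obtain ⟨m, hm⟩ := hm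
  have h1 : (A.comap f.toMonoidHom).index = A.index :=
    Subgroup.index_comap_of_surjective A f.surjective
  have h2 := hC (A.comap f.toMonoidHom) (hA.comap _) ⟨m, by rw [h1, hm]⟩ e he (fun x => by
    rw [Subgroup.mem_comap, map_pow]
    exact hx _)
  rw [h1] at h2
  exact h2

end LDM
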