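import Pool.Agent.LDM.Red
import Pool.Agent.LDM.Act

/-! LDM-LMOdd. The lemma of Lubotzky and Mann, odd p.

PLAN. Apply `red` with `T = ⁅N, W⁆`, `L = pw p N` (both normal in `G`). In the quotient `H` write
`N, W` for the images. Then: `N ≤ W`, both normal; every `ρ : H →* GL_r(F_p)` is trivial on `W`
(compose with `π`: `ρ.comp π` is trivial on the old `W`); the index of `Fr p N = (Fr p N).map π` in
the new `N` is at most `p^r` (`map_Fr`; an index of images is at most the index); `pw p N = ⊥`, so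
`x^p = 1` for `x ∈ N`, and `Fr p N = ⁅N,N⁆`; `T = ⁅N,W⁆` is central of order `p`. Note `T ≤ N`.
Claim: `⁅N,W⁆ = ⊥`, contradiction with order `p`.
Consider the subgroups `J` with `J.Normal`, `T ≤ J`, `J ≤ N` and `⁅J,W⁆ = ⊥` (`J` commutes with
`W`); `J = T` is one (central). Choose a maximal one (finite). If `J = N` we are done. Otherwise
choose a minimal normal subgroup `K` of `H` with `K ≤ N`, not `K ≤ J`; then `⁅K,⊤⁆ ≤ J` (nilpotency), and for
`x ∈ K` outside `J` the subgroup `M = J⟨x⟩` is normal, `J < M ≤ N`.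
`J` commutes with `N` (as `N ≤ W`), and `M/J` is cyclic (`M = J⟨x⟩`), so `M` is commutative, of
exponent `p`. Order estimate: `|N : Fr p N| ≤ p^r` and `Fr p N = ⁅N,N⁆ ≤
⁅N,W⁆ = T`, `|T| = p`, hence `|N| ≤ p^(r+1)`; more precisely, if `M ≠ N` then `|M| ≤ |N|/p ≤ p^r`;
if `M = N` then `N` is commutative, so `Fr p N = ⊥` and `|M| = |N| ≤ p^r`. In both cases `act_triv`
applies to `M` and shows that `M` commutes with `W`, contradicting the maximality of `J`.
(Here `|N| ≤ p^(r+1)`: `|N| = |N : Fr p N| · |Fr p N| ≤ p^r · |T|`.) -/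

universe u

namespace LDM

open scoped commutatorElement

private theorem lmo_card {H : Type u} [Group H] {K N : Subgroup H} (h : K ≤ N) :
    Nat.card K * K.relIndex N = Nat.card N := by
  have h1 := (K.subgroupOf N).card_mul_index
  rw [Nat.card_congr (Subgroup.subgroupOfEquivOfLe h).toEquiv] at h1
  exact h1

private theorem lmo_step {H : Type u} [Group H] [Finite H] {p : ℕ} [Fact p.Prime]
    (hH : IsPGroup p H) (J N : Subgroup H) (hN : N.Normal) (hJN : ¬ N ≤ J) :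
    ∃ K : Subgroup H, K.Normal ∧ K ≤ N ∧ ¬ K ≤ J ∧ ⁅K, (⊤ : Subgroup H)⁆ ≤ J := by
  obtain ⟨K, hKN, hK⟩ := Finite.exists_le_minimal
    (p := fun K : Subgroup H => K.Normal ∧ ¬ K ≤ J) ⟨hN, hJN⟩
  obtain ⟨⟨hKn, hKJ⟩, hmin⟩ := hK
  refine ⟨K, hKn, hKN, hKJ, ?_⟩
  by_contra hcon
  have hle : ⁅K, (⊤ : Subgroup H)⁆ ≤ K := Subgroup.commutator_le_left K ⊤
  have h1 : K ≤ ⁅K, (⊤ : Subgroup H)⁆ := hmin ⟨Subgroup.commutator_normal K ⊤, hcon⟩ hle
  have h2 : ∀ n, K ≤ (⊤ : Subgroup H).lowerCentralSeries n := by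
    intro n
    induction n with
    | zero => exact le_top
    | succ n ih =>
      refine h1.trans ?_
      rw [Subgroup.lowerCentralSeries_succ]
      exact Subgroup.commutator_mono ih le_rfl
  have h3 : Group.IsNilpotent H := hH.isNilpotent
  obtain ⟨n, hn⟩ := Subgroup.nilpotent_iff_lowerCentralSeries.1 h3
  have h4 := h2 n
  rw [hn] at h4
  exact hKJ (h4.trans bot_le)

private theorem lmo_core {H : Type u} [Group H] [Finite H] {p : ℕ} [Fact p.Prime]
    (hH : IsPGroup p H) (r : ℕ) (W N : Subgroup H) (hWn : W.Normal) (hNn : N.Normal)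
    (hNW : N ≤ W) (hW : ∀ ρ : H →* Matrix.GeneralLinearGroup (Fin r) (ZMod p), W ≤ ρ.ker)
    (hexp : ∀ x ∈ N, x ^ p = 1) (hTc : ⁅N, W⁆ ≤ Subgroup.center H)
    (hTcard : Nat.card (⁅N, W⁆ : Subgroup H) = p)
    (hd : (⁅N, N⁆ : Subgroup H).relIndex N ≤ p ^ r) : False := by
  have hp := (Fact.out : p.Prime)
  have hTN : ⁅N, W⁆ ≤ N := Subgroup.commutator_le_left N W
  obtain ⟨J, hTJ, hJ⟩ := Finite.exists_le_maximal
    (p := fun J : Subgroup H => J.Normal ∧ ⁅N, W⁆ ≤ J ∧ J ≤ N ∧ ∀ j ∈ J, ∀ w ∈ W, j * w = w * j)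
    (a := ⁅N, W⁆) ⟨Subgroup.commutator_normal N W, le_rfl, hTN, fun j hj w _ =>
      ((Subgroup.mem_center_iff.1 (hTc hj)) w).symm⟩
  obtain ⟨⟨hJn, -, hJN, hJW⟩, hmax⟩ := hJ
  by_cases hNJ : N ≤ J
  · have h1 : (⁅N, W⁆ : Subgroup H) = ⊥ := by
      rw [Subgroup.commutator_eq_bot_iff_le_centralizer]
      intro x hx
      rw [Subgroup.mem_centralizer_iff]
      intro w hw
      exact (hJW x (hNJ hx) w hw).symm
    rw [h1, Subgroup.card_bot] at hTcard
    exact hp.one_lt.ne hTcard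
  obtain ⟨K, hKn, hKN, hKJ, hKT⟩ := lmo_step hH J N hNn hNJ
  obtain ⟨x, hxK, hxJ⟩ := Set.not_subset.1 hKJ
  have hmem : ∀ m, m ∈ J ⊔ Subgroup.zpowers x ↔ ∃ j ∈ J, ∃ k : ℤ, j * x ^ k = m := by
    intro m
    rw [Subgroup.mem_sup_of_normal_left]
    constructor
    · rintro ⟨j, hj, z, hz, rfl⟩
      obtain ⟨k, rfl⟩ := Subgroup.mem_zpowers_iff.1 hz
      exact ⟨j, hj, k, rfl⟩
    · rintro ⟨j, hj, k, rfl⟩
      exact ⟨j, hj, x ^ k, Subgroup.mem_zpowers_iff.2 ⟨k, rfl⟩, rfl⟩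
  have hMN : J ⊔ Subgroup.zpowers x ≤ N := by
    refine sup_le hJN ?_
    rw [Subgroup.zpowers_le]
    exact hKN hxK
  have hMn : (J ⊔ Subgroup.zpowers x).Normal := by
    refine ⟨fun m hm g => ?_⟩
    obtain ⟨j, hj, k, rfl⟩ := (hmem m).1 hm
    rw [hmem]
    refine ⟨g * j * g⁻¹ * ⁅g, x ^ k⁆, J.mul_mem (hJn.conj_mem j hj g) ?_, k, ?_⟩
    · apply hKT
      rw [Subgroup.commutator_comm]
      exact Subgroup.commutator_mem_commutator (Subgroup.mem_top g) (K.zpow_mem hxK k)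
    · rw [commutatorElement_def]
      group
  have hMc : ∀ a ∈ J ⊔ Subgroup.zpowers x, ∀ b ∈ J ⊔ Subgroup.zpowers x, a * b = b * a := by
    intro a ha b hb
    obtain ⟨j, hj, k, rfl⟩ := (hmem a).1 ha
    obtain ⟨j', hj', l, rfl⟩ := (hmem b).1 hb
    have hxW : ∀ n : ℤ, x ^ n ∈ W := fun n => W.zpow_mem (hNW (hKN hxK)) n
    have h1 : ∀ n : ℤ, j * x ^ n = x ^ n * j := fun n => hJW j hj _ (hxW n)
    have h2 : ∀ n : ℤ, j' * x ^ n = x ^ n * j' := fun n => hJW j' hj' _ (hxW n)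
    have h3 : j * j' = j' * j := hJW j hj j' (hNW (hJN hj'))
    calc j * x ^ k * (j' * x ^ l) = j * (x ^ k * j') * x ^ l := by group
      _ = j * (j' * x ^ k) * x ^ l := by rw [h2]
      _ = j * j' * (x ^ k * x ^ l) := by group
      _ = j' * j * (x ^ l * x ^ k) := by rw [h3, ← zpow_add, ← zpow_add, add_comm]
      _ = j' * (j * x ^ l) * x ^ k := by group
      _ = j' * (x ^ l * j) * x ^ k := by rw [h1]
      _ = j' * x ^ l * (j * x ^ k) := by group
  have hNcard : Nat.card N ≤ p ^ (r + 1) := by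
    have h1 := lmo_card (Subgroup.commutator_le_left N N)
    have h2 : Nat.card (⁅N, N⁆ : Subgroup H) ≤ p := by
      rw [← hTcard]
      exact Subgroup.card_le_of_le (Subgroup.commutator_mono le_rfl hNW)
    rw [← h1, pow_succ, mul_comm (p ^ r)]
    exact Nat.mul_le_mul h2 hd
  have hMcard : Nat.card (J ⊔ Subgroup.zpowers x : Subgroup H) ≤ p ^ r := by
    by_cases hMeq : N ≤ J ⊔ Subgroup.zpowers x
    · have h1 : J ⊔ Subgroup.zpowers x = N := le_antisymm hMN hMeq
      have h2 : (⁅N, N⁆ : Subgroup H) = ⊥ := by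
        rw [Subgroup.commutator_eq_bot_iff_le_centralizer]
        intro a ha
        rw [Subgroup.mem_centralizer_iff]
        intro b hb
        exact hMc b (hMeq hb) a (hMeq ha)
      have h3 := lmo_card (Subgroup.commutator_le_left N N)
      rw [h2, Subgroup.card_bot, one_mul] at h3
      rw [h2, h3] at hd
      rw [h1]
      exact hd
    · have h1 := lmo_card hMN
      obtain ⟨n, hn⟩ := (hH.to_subgroup N).exists_card_eq
      have h2 : (J ⊔ Subgroup.zpowers x).relIndex N ∣ p ^ n := by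
        rw [← hn, ← h1]
        exact dvd_mul_left _ _
      obtain ⟨k, -, hk⟩ := (Nat.dvd_prime_pow hp).1 h2
      have hk0 : k ≠ 0 := by
        rintro rfl
        rw [pow_zero] at hk
        exact hMeq (Subgroup.relIndex_eq_one.1 hk)
      have h3 : p ≤ (J ⊔ Subgroup.zpowers x).relIndex N := by
        rw [hk]
        exact Nat.le_self_pow hk0 p
      have h4 : Nat.card (J ⊔ Subgroup.zpowers x : Subgroup H) * p ≤ p ^ r * p := by
        rw [← pow_succ]
        refine le_trans (Nat.mul_le_mul_left _ h3) ?_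
        rw [h1]
        exact hNcard
      exact Nat.le_of_mul_le_mul_right h4 hp.pos
  have hMW := act_triv r W (J ⊔ Subgroup.zpowers x) hMn hW hMc (fun y hy => hexp y (hMN hy))
    inferInstance hMcard
  have h1 : J ⊔ Subgroup.zpowers x ≤ J :=
    hmax ⟨hMn, hTJ.trans le_sup_left, hMN, hMW⟩ le_sup_left
  exact hxJ (h1 (Subgroup.mem_sup_right (Subgroup.mem_zpowers x)))

theorem lm_odd {G : Type u} [Group G] [Finite G] {p : ℕ} [Fact p.Prime] (hp : p ≠ 2)
    (hG : IsPGroup p G) (r : ℕ) (W N : Subgroup G) (hWn : W.Normal) (hNn : N.Normal)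
    (hNW : N ≤ W) (hW : ∀ ρ : G →* Matrix.GeneralLinearGroup (Fin r) (ZMod p), W ≤ ρ.ker)
    (hd : (Fr p N).relIndex N ≤ p ^ r) : ⁅N, W⁆ ≤ pw p N := by
  refine red hG ⁅N, W⁆ (pw p N) (Subgroup.commutator_normal N W) (pw_normal hNn) ?_
  intro H _ _ π hπ hH hL hTc hTcard
  rw [Subgroup.map_commutator] at hTc hTcard
  rw [map_pw] at hL
  have hexp : ∀ x ∈ N.map π, x ^ p = 1 := by
    intro x hx
    have h1 := pow_mem_pw (n := p) hx
    rw [hL, Subgroup.mem_bot] at h1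
    exact h1
  have hFr : Fr p (N.map π) = ⁅N.map π, N.map π⁆ := by
    unfold Fr
    rw [hL, bot_sup_eq]
  refine lmo_core hH r (W.map π) (N.map π) (hWn.map π hπ) (hNn.map π hπ) (Subgroup.map_mono hNW)
    (fun ρ => ?_) hexp hTc hTcard ?_
  · rw [Subgroup.map_le_iff_le_comap]
    exact hW (ρ.comp π)
  · rw [← hFr, ← map_Fr]
    refine le_trans (Nat.le_of_dvd ?_ ?_) hd
    · exact Nat.pos_of_ne_zero Subgroup.FiniteIndex.index_ne_zero
    · have h1 : ((Fr p N).subgroupOf N).map (π.subgroupMap N) ≤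
          ((Fr p N).map π).subgroupOf (N.map π) := by
        rintro _ ⟨y, hy, rfl⟩
        rw [Subgroup.mem_subgroupOf]
        exact Subgroup.mem_map_of_mem π (Subgroup.mem_subgroupOf.1 hy)
      exact (Subgroup.index_dvd_of_le h1).trans
        (Subgroup.index_map_dvd _ (MonoidHom.subgroupMap_surjective π N))

end LDM
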