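import Pool.Agent.LDM.Red
import Pool.Agent.LDM.Act

/-! LDM-LMTwo. The lemma of Lubotzky and Mann, p = 2. Three steps: `⁅N, W⁆ ≤ pw 2 N`, then `⁅pw 2 N, W⁆ ≤ pw 4 N` (by `red`),
then `⁅N, pw 2 W⁆ ≤ pw 4 N`. -/

universe u

open scoped commutatorElement

namespace LDM

private theorem comm_closure {H : Type u} [Group H] {n : ℕ} {W : Subgroup H} {z : H}
    (h : ∀ v ∈ W, z * v ^ n = v ^ n * z) : ∀ y ∈ pw n W, z * y = y * z := by
  intro y hy
  refine Subgroup.closure_induction (p := fun y _ => z * y = y * z) ?_ ?_ ?_ ?_ hy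
  · rintro x ⟨v, hv, rfl⟩
    exact h v hv
  · simp
  · intro a b _ _ ha hb
    exact (Commute.mul_right (show Commute z a from ha) (show Commute z b from hb)).eq
  · intro a _ ha
    exact (Commute.inv_right (show Commute z a from ha)).eq

private theorem exp_two {H : Type u} [Group H] {N : Subgroup H} (h4 : ∀ x ∈ N, x ^ 4 = 1)
    (hc : ∀ z ∈ pw 2 N, ∀ y ∈ pw 2 N, z * y = y * z) : ∀ z ∈ pw 2 N, z ^ 2 = 1 := by
  intro z hz
  refine Subgroup.closure_induction (p := fun z _ => z ^ 2 = 1) ?_ ?_ ?_ ?_ hz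
  · rintro x ⟨v, hv, rfl⟩
    rw [← pow_mul]
    exact h4 v hv
  · simp
  · intro a b ha' hb' ha hb
    rw [(show Commute a b from hc a ha' b hb').mul_pow, ha, hb, one_mul]
  · intro a _ ha
    rw [inv_pow, ha, inv_one]

private theorem conj_eq {H : Type u} [Group H] (n v : H) : v * n * v⁻¹ = n * ⁅n⁻¹, v⁆ := by
  rw [commutatorElement_def]
  group

private theorem comm_mem {H : Type u} [Group H] {N W P : Subgroup H} (h1 : ⁅N, W⁆ ≤ P) {n v : H}
    (hn : n ∈ N) (hv : v ∈ W) : ⁅n⁻¹, v⁆ ∈ P :=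
  h1 (Subgroup.commutator_mem_commutator (N.inv_mem hn) hv)

private theorem core2 {H : Type u} [Group H] (N W : Subgroup H) (hNW : N ≤ pw 2 W) (h1 : ⁅N, W⁆ ≤ pw 2 N)
    (h4 : ∀ x ∈ N, x ^ 4 = 1) (hT : ⁅pw 2 N, W⁆ ≤ Subgroup.center H)
    (hT2 : ∀ t ∈ ⁅pw 2 N, W⁆, t ^ 2 = 1) : ⁅pw 2 N, W⁆ = ⊥ := by
  have hA : ∀ z ∈ pw 2 N, ∀ y ∈ pw 2 W, z * y = y * z := by
    intro z hz
    apply comm_closure
    intro v hv
    have ht := Subgroup.commutator_mem_commutator hz hv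
    have hcen := Subgroup.mem_center_iff.1 (hT ht)
    have h2 := hT2 _ ht
    have h3 : z * v * z⁻¹ = ⁅z, v⁆ * v := by
      rw [commutatorElement_def]
      group
    have h5 : z * v ^ 2 * z⁻¹ = v ^ 2 := by
      have h6 : (z * v * z⁻¹) ^ 2 = z * v ^ 2 * z⁻¹ := conj_pow
      rw [← h6, h3, (show Commute ⁅z, v⁆ v from (hcen v).symm).mul_pow, h2, one_mul]
    exact mul_inv_eq_iff_eq_mul.1 h5
  have hle : pw 2 N ≤ pw 2 W := (pw_le 2 N).trans hNW
  have hB := exp_two h4 fun z hz y hy => hA z hz y (hle hy)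
  rw [Subgroup.commutator_eq_bot_iff_le_centralizer]
  intro z hz
  rw [Subgroup.mem_centralizer_iff]
  intro v hv
  symm
  symm
  refine (comm_closure (z := v) (n := 2) (W := N) (fun n hn => ?_) z hz)
  have hc := comm_mem h1 hn hv
  have h5 : v * n ^ 2 * v⁻¹ = n ^ 2 := by
    have h6 : (v * n * v⁻¹) ^ 2 = v * n ^ 2 * v⁻¹ := conj_pow
    have h7 : Commute n ⁅n⁻¹, v⁆ := (show Commute ⁅n⁻¹, v⁆ n from hA _ hc n (hNW hn)).symm
    rw [← h6, conj_eq, h7.mul_pow, hB _ hc, mul_one]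
  exact mul_inv_eq_iff_eq_mul.1 h5

private theorem core3 {H : Type u} [Group H] (N W : Subgroup H) (hNW : N ≤ W) (h1 : ⁅N, W⁆ ≤ pw 2 N)
    (h4 : ∀ x ∈ N, x ^ 4 = 1) (hc : ∀ z ∈ pw 2 N, ∀ w ∈ W, z * w = w * z) :
    ∀ n ∈ N, ∀ y ∈ pw 2 W, n * y = y * n := by
  have hB := exp_two h4 fun z hz y hy => hc z hz y (hNW (pw_le 2 N hy))
  intro n hn
  apply comm_closure
  intro v hv
  have hcm := comm_mem h1 hn hv
  have h5 : v * ⁅n⁻¹, v⁆ * v⁻¹ = ⁅n⁻¹, v⁆ := by
    rw [← hc _ hcm v hv, mul_inv_cancel_right]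
  have h6 : v ^ 2 * n * (v ^ 2)⁻¹ = n := by
    have e1 : v ^ 2 * n * (v ^ 2)⁻¹ = v * (v * n * v⁻¹) * v⁻¹ := by
      rw [pow_two, mul_inv_rev]
      simp only [mul_assoc]
    have e2 : v * (n * ⁅n⁻¹, v⁆) * v⁻¹ = (v * n * v⁻¹) * (v * ⁅n⁻¹, v⁆ * v⁻¹) := by
      simp only [mul_assoc, inv_mul_cancel_left]
    rw [e1, conj_eq n v, e2, h5, conj_eq n v, mul_assoc, ← pow_two, hB _ hcm, mul_one]
  exact (mul_inv_eq_iff_eq_mul.1 h6).symm

theorem lm_two {G : Type u} [Group G] [Finite G]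
    (hG : IsPGroup 2 G) (r : ℕ) (W N : Subgroup G) (hWn : W.Normal) (hNn : N.Normal)
    (hNW : N ≤ pw 2 W)
    (hW : ∀ ρ : G →* Matrix.GeneralLinearGroup (Fin r) (ZMod 2), W ≤ ρ.ker)
    (hd : (Fr 2 N).relIndex N ≤ 2 ^ r) : ⁅N, pw 2 W⁆ ≤ pw 4 N := by
  have hP : (pw 2 N).Normal := pw_normal hNn
  have hL : (pw 4 N).Normal := pw_normal hNn
  have hf : Fact (Nat.Prime 2) := ⟨Nat.prime_two⟩
  -- step 1
  have s1 : ⁅N, W⁆ ≤ pw 2 N := by
    set π := QuotientGroup.mk' (pw 2 N) with hπ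
    have hexp : ∀ x ∈ N.map π, x ^ 2 = 1 := by
      rintro x ⟨y, hy, rfl⟩
      rw [← map_pow]
      exact (QuotientGroup.eq_one_iff _).2 (pow_mem_pw hy)
    have hcomm : ∀ x ∈ N.map π, ∀ y ∈ N.map π, x * y = y * x := by
      intro x hx y hy
      have h1 := hexp x hx
      have h2 := hexp y hy
      have h3 := hexp _ ((N.map π).mul_mem hx hy)
      have e : ∀ g : G ⧸ pw 2 N, g ^ 2 = 1 → g⁻¹ = g := by
        intro g hg
        rw [inv_eq_iff_mul_eq_one, ← pow_two, hg]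
      calc x * y = (x * y)⁻¹ := (e _ h3).symm
        _ = y⁻¹ * x⁻¹ := mul_inv_rev x y
        _ = y * x := by rw [e _ h1, e _ h2]
    have hFr : Fr 2 N = pw 2 N := by
      apply le_antisymm _ le_sup_left
      refine sup_le le_rfl (Subgroup.commutator_le.2 fun x hx y hy => ?_)
      rw [← QuotientGroup.eq_one_iff]
      change π ⁅x, y⁆ = 1
      rw [map_commutatorElement, commutatorElement_eq_one_iff_mul_comm]
      exact hcomm _ (Subgroup.mem_map_of_mem _ hx) _ (Subgroup.mem_map_of_mem _ hy)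
    have hcard : Nat.card (N.map π) ≤ 2 ^ r := by
      rw [hFr] at hd
      have h1 : π.ker.relIndex N = Nat.card (N.map π) := Subgroup.relIndex_ker N π
      rw [← h1, hπ, QuotientGroup.ker_mk']
      exact hd
    have hN' : (N.map π).Normal := hNn.map π (QuotientGroup.mk'_surjective _)
    have key := act_triv (p := 2) r (W.map π) (N.map π) hN' (fun ρ => by
      rw [Subgroup.map_le_iff_le_comap]
      intro w hw
      have := hW (ρ.comp π) hw
      simpa [MonoidHom.mem_ker] using this) hcomm hexp inferInstance hcard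
    refine Subgroup.commutator_le.2 fun x hx y hy => ?_
    rw [← QuotientGroup.eq_one_iff]
    change π ⁅x, y⁆ = 1
    rw [map_commutatorElement, commutatorElement_eq_one_iff_mul_comm]
    exact key _ (Subgroup.mem_map_of_mem _ hx) _ (Subgroup.mem_map_of_mem _ hy)
  -- step 2
  have s2 : ⁅pw 2 N, W⁆ ≤ pw 4 N := by
    refine red hG ⁅pw 2 N, W⁆ (pw 4 N) inferInstance hL ?_
    intro H _ _ π hsurj hHp hL0 hcen hcard
    have e1 : (⁅pw 2 N, W⁆).map π = ⁅pw 2 (N.map π), W.map π⁆ := by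
      rw [Subgroup.map_commutator, map_pw]
    have hbot : ⁅pw 2 (N.map π), W.map π⁆ = ⊥ := by
      refine core2 (N.map π) (W.map π) ?_ ?_ ?_ ?_ ?_
      · rw [← map_pw]
        exact Subgroup.map_mono hNW
      · rw [← map_pw, ← Subgroup.map_commutator]
        exact Subgroup.map_mono s1
      · rintro x ⟨y, hy, rfl⟩
        have h1 : π (y ^ 4) ∈ (pw 4 N).map π := Subgroup.mem_map_of_mem _ (pow_mem_pw hy)
        rw [hL0, Subgroup.mem_bot, map_pow] at h1
        exact h1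
      · rw [← e1]
        exact hcen
      · rw [← e1]
        intro t ht
        have h1 : (⟨t, ht⟩ : (⁅pw 2 N, W⁆).map π) ^ 2 = 1 := by
          have h0 := pow_card_eq_one' (x := (⟨t, ht⟩ : (⁅pw 2 N, W⁆).map π))
          rwa [hcard] at h0
        have h2 := congrArg Subtype.val h1
        simpa using h2
    rw [e1, hbot] at hcard
    simp at hcard
  -- step 3
  set π := QuotientGroup.mk' (pw 4 N) with hπ
  have h3 := core3 (N.map π) (W.map π) (Subgroup.map_mono (hNW.trans (pw_le 2 W)))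
    (by
      rw [← map_pw, ← Subgroup.map_commutator]
      exact Subgroup.map_mono s1)
    (by
      rintro x ⟨y, hy, rfl⟩
      rw [← map_pow]
      exact (QuotientGroup.eq_one_iff _).2 (pow_mem_pw hy))
    (by
      rw [← map_pw]
      rintro z ⟨a, ha, rfl⟩ w ⟨b, hb, rfl⟩
      rw [← commutatorElement_eq_one_iff_mul_comm, ← map_commutatorElement]
      exact (QuotientGroup.eq_one_iff _).2 (s2 (Subgroup.commutator_mem_commutator ha hb)))
  refine Subgroup.commutator_le.2 fun x hx y hy => ?_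
  rw [← QuotientGroup.eq_one_iff]
  change π ⁅x, y⁆ = 1
  rw [map_commutatorElement, commutatorElement_eq_one_iff_mul_comm]
  refine h3 _ (Subgroup.mem_map_of_mem _ hx) _ ?_
  rw [← map_pw]
  exact Subgroup.mem_map_of_mem _ hy

end LDM
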