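import Pool.Agent.LDM.UpDim
import Pool.Agent.LDM.GrowN
import Pool.Agent.LDM.GrowS

/-! LDM-Main. Assembly.

PLAN for `dimP_iff`. (→) `B` of finite index; `B₀ = B.normalCore` is normal of finite index, `≤ B`;
`grow_normal` for `B₀`, then `pgrowth_sup`. (←) `dimP_le` with `s = r`: for `N₀` with `NS N₀`
take the constant `C` of `PGrowth p N₀ r` and for `A` the subgroup `A.subgroupOf N₀` (normal in `N₀`,
of index `A.relIndex N₀`); `⌊(r:ℝ)⌋₊ = r`.
PLAN for `dimP_comm`. It suffices (`ENat`: two elements with the same natural upper bounds are equal)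
that `DimP p Γ' ≤ r ↔ DimP p Γ ≤ r` for all `r : ℕ`. By `dimP_iff` for `Γ` and for `Γ'` (finitely
generated by `fr_finiteIndex`). (i) If all finite-index `B ≤ Γ` have `PGrowth p B r` and `B'` is a
finite-index subgroup of `↥Γ'`, then `B'.map Γ'.subtype` is a finite-index subgroup of `Γ`,
isomorphic to `B'`: `pgrowth_iso`. (ii) Conversely for `B ≤ Γ` of finite index, `B ⊓ Γ'` has finite index
in `B`; `(B ⊓ Γ')` is isomorphic to `B.subgroupOf Γ'`, which has finite index in `Γ'`:
`pgrowth_iso`, `pgrowth_sup`.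
PLAN for `dimP_le_dim`: `iSup₂_mono`, `iInf₂_mono`, `deltaP_le_delta`. -/

universe u

namespace LDM

theorem dimP_le_dim {Γ : Type u} [Group Γ] (p : ℕ) [Fact p.Prime] : DimP p Γ ≤ Dim Γ := by
  unfold DimP Dim
  exact iSup₂_mono fun N₀ _ => iInf₂_mono fun A _ => deltaP_le_delta A p

private theorem relIndex_ne {G : Type u} [Group G] {B₀ B : Subgroup G} (h : B₀ ≤ B) (hf : B₀.FiniteIndex) :
    B₀.relIndex B ≠ 0 := by
  intro h0
  have h1 := Subgroup.relIndex_mul_index h
  rw [h0, zero_mul] at h1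
  exact hf.index_ne_zero h1.symm

theorem dimP_iff {Γ : Type u} [Group Γ] [Group.FG Γ] (p : ℕ) [Fact p.Prime] (r : ℕ) :
    DimP p Γ ≤ r ↔ ∀ B : Subgroup Γ, B.FiniteIndex → PGrowth p B (r : ℝ) := by
  constructor
  · intro h B hB
    have hfi : B.normalCore.FiniteIndex := inferInstance
    have h1 := grow_normal p r h B.normalCore ⟨inferInstance, hfi⟩
    exact pgrowth_sup p r (Nat.cast_nonneg r) B.normalCore B B.normalCore_le
      (relIndex_ne B.normalCore_le hfi) h1
  · intro h
    have h1 := dimP_le (Γ := Γ) p (r : ℝ) (Nat.cast_nonneg r) (fun N₀ hN₀ => by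
      obtain ⟨C, hC⟩ := h N₀ hN₀.2
      refine ⟨C, fun A hA hle hm e he hx => ?_⟩
      have hn : (A.subgroupOf N₀).Normal := by
        have := hA.1
        infer_instance
      exact hC (A.subgroupOf N₀) hn hm e he fun x => by
        rw [Subgroup.mem_subgroupOf]
        exact hx x.1 x.2)
    rw [Nat.floor_natCast] at h1
    exact h1

theorem dimP_comm {Γ : Type u} [Group Γ] [Group.FG Γ] (p : ℕ) [Fact p.Prime] (Γ' : Subgroup Γ)
    (h : Γ'.FiniteIndex) : DimP p Γ' = DimP p Γ := by
  have hfg : Group.FG Γ' := inferInstance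
  have hinj : Function.Injective Γ'.subtype := Γ'.subtype_injective
  have key : ∀ r : ℕ, DimP p Γ' ≤ r ↔ DimP p Γ ≤ r := by
    intro r
    rw [dimP_iff, dimP_iff]
    constructor
    · intro h1 B hB
      have h2 : (B.subgroupOf Γ').FiniteIndex := inferInstance
      have h3 := h1 _ h2
      have e1 : ↥(B.subgroupOf Γ') ≃* ↥(B ⊓ Γ') :=
        ((B.subgroupOf Γ').equivMapOfInjective Γ'.subtype hinj).trans
          (MulEquiv.subgroupCongr (Subgroup.subgroupOf_map_subtype B Γ'))
      have h4 := pgrowth_iso p (r : ℝ) e1 h3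
      have h5 : (B ⊓ Γ').FiniteIndex := inferInstance
      exact pgrowth_sup p r (Nat.cast_nonneg r) (B ⊓ Γ') B inf_le_left (relIndex_ne inf_le_left h5) h4
    · intro h1 B' hB'
      have h2 : (B'.map Γ'.subtype).FiniteIndex := by
        refine ⟨?_⟩
        rw [Subgroup.index_map_subtype]
        exact mul_ne_zero hB'.index_ne_zero h.index_ne_zero
      exact pgrowth_iso p (r : ℝ) (B'.equivMapOfInjective Γ'.subtype hinj).symm (h1 _ h2)
  have le_of : ∀ a b : ℕ∞, (∀ r : ℕ, b ≤ r → a ≤ r) → a ≤ b := by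
    intro a b hab
    induction b using ENat.recTopCoe with
    | top => exact le_top
    | coe n => exact hab n le_rfl
  exact le_antisymm (le_of _ _ fun r hr => (key r).2 hr) (le_of _ _ fun r hr => (key r).1 hr)

end LDM
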