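import Pool.Agent.LDM.Red

/-! LDM-PEOdd. Powerfully embedded subgroups, odd p: if `[M,G] ≤ M^p` then `[M^p,G] ≤ (M^p)^p`.
Reduction `red` to the case where `[M^p,G]` is central of order `p`, then a commutator expansion. -/

universe u

namespace LDM

private theorem pw_binom {H : Type u} [Group H] {x c t : H} (ht : t ∈ Subgroup.center H)
    (h : c * x = x * c * t) (n : ℕ) : (x * c) ^ n = x ^ n * c ^ n * t ^ (n.choose 2) := by
  have hcomm : ∀ y : H, Commute t y := fun y => ((Subgroup.mem_center_iff.1 ht) y).symm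
  have hcx : ∀ m : ℕ, c ^ m * x = x * c ^ m * t ^ m := by
    intro m
    induction m with
    | zero => simp
    | succ m ih =>
      calc c ^ (m + 1) * x = c ^ m * (c * x) := by rw [pow_succ, mul_assoc]
        _ = (c ^ m * x) * (c * t) := by rw [h]; group
        _ = x * c ^ m * (t ^ m * c) * t := by rw [ih]; group
        _ = x * c ^ m * (c * t ^ m) * t := by rw [((hcomm c).pow_left m).eq]
        _ = x * c ^ (m + 1) * t ^ (m + 1) := by rw [pow_succ, pow_succ]; simp only [mul_assoc]
  induction n with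
  | zero => simp
  | succ n ih =>
    have hch : (n + 1).choose 2 = n + n.choose 2 := by
      rw [Nat.choose_succ_succ' n 1, Nat.choose_one_right]
    have h1 : t ^ (n.choose 2) * x = x * t ^ (n.choose 2) := ((hcomm x).pow_left _).eq
    have h2 : t ^ n * (t ^ (n.choose 2) * c) = c * (t ^ n * t ^ (n.choose 2)) := by
      rw [← mul_assoc, ← pow_add]
      exact ((hcomm c).pow_left _).eq
    calc (x * c) ^ (n + 1) = x ^ n * c ^ n * t ^ (n.choose 2) * (x * c) := by rw [pow_succ, ih]
      _ = x ^ n * c ^ n * (t ^ (n.choose 2) * x) * c := by simp only [mul_assoc]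
      _ = x ^ n * (c ^ n * x) * t ^ (n.choose 2) * c := by rw [h1]; simp only [mul_assoc]
      _ = x ^ n * x * c ^ n * (t ^ n * (t ^ (n.choose 2) * c)) := by
          rw [hcx n]; simp only [mul_assoc]
      _ = x ^ (n + 1) * c ^ (n + 1) * t ^ ((n + 1).choose 2) := by
          rw [h2, hch, pow_succ x, pow_succ c, pow_add]; simp only [mul_assoc]

theorem pe_odd {G : Type u} [Group G] [Finite G] {p : ℕ} [Fact p.Prime] (hp : p ≠ 2)
    (hG : IsPGroup p G) (M : Subgroup G) (hM : M.Normal) (h : ⁅M, (⊤ : Subgroup G)⁆ ≤ pw p M) :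
    ⁅pw p M, (⊤ : Subgroup G)⁆ ≤ pw p (pw p M) := by
  have hMn := hM
  have hpM : (pw p M).Normal := pw_normal hM
  have hppM : (pw p (pw p M)).Normal := pw_normal hpM
  refine red hG ⁅pw p M, (⊤ : Subgroup G)⁆ (pw p (pw p M)) inferInstance hppM ?_
  intro H _ _ π hπ _ hL hc hcard
  have hp1 : p.Prime := Fact.out
  have hT : (⁅pw p M, (⊤ : Subgroup G)⁆).map π = ⁅pw p (M.map π), (⊤ : Subgroup H)⁆ := by
    rw [Subgroup.map_commutator, map_pw, Subgroup.map_top_of_surjective π hπ]
  have hM1 : ⁅M.map π, (⊤ : Subgroup H)⁆ ≤ pw p (M.map π) := by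
    have h1 := Subgroup.map_mono (f := π) h
    rwa [Subgroup.map_commutator, map_pw, Subgroup.map_top_of_surjective π hπ] at h1
  rw [map_pw, map_pw] at hL
  rw [hT] at hc hcard
  have hMHn : (M.map π).Normal := hM.map π hπ
  have hpMHn : (pw p (M.map π)).Normal := pw_normal hMHn
  generalize M.map π = K at hc hcard hM1 hL hMHn hpMHn
  have hexp : ∀ z ∈ pw p K, z ^ p = 1 := by
    intro z hz
    have h1 := pow_mem_pw (n := p) hz
    rw [hL] at h1
    exact Subgroup.mem_bot.1 h1
  have hcen : pw p K ≤ Subgroup.center H := by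
    rw [pw_le_iff]
    intro x hx
    rw [Subgroup.mem_center_iff]
    intro g
    have hcm : x⁻¹ * g⁻¹ * x * g ∈ pw p K := by
      apply hM1
      have h1 := Subgroup.commutator_mem_commutator (K.inv_mem hx) (Subgroup.mem_top g⁻¹)
      rw [commutatorElement_def, inv_inv, inv_inv] at h1
      exact h1
    generalize hcd : x⁻¹ * g⁻¹ * x * g = c at hcm
    have htm : c⁻¹ * x⁻¹ * c * x ∈ ⁅pw p K, (⊤ : Subgroup H)⁆ := by
      have h1 := Subgroup.commutator_mem_commutator ((pw p K).inv_mem hcm) (Subgroup.mem_top x⁻¹)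
      rw [commutatorElement_def, inv_inv, inv_inv] at h1
      exact h1
    have htc := hc htm
    have htp : (c⁻¹ * x⁻¹ * c * x) ^ p = 1 := by
      apply hexp
      have h1 : ⁅pw p K, (⊤ : Subgroup H)⁆ ≤ pw p K := Subgroup.commutator_le_left _ _
      exact h1 htm
    have hcx : c * x = x * c * (c⁻¹ * x⁻¹ * c * x) := by group
    generalize c⁻¹ * x⁻¹ * c * x = t at htc htp hcx
    have hcp : (x * c) ^ p = x ^ p := by
      rw [pw_binom htc hcx p]
      obtain ⟨m, hm⟩ := hp1.dvd_choose_self (k := 2) (by norm_num)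
        (lt_of_le_of_ne hp1.two_le (Ne.symm hp))
      rw [hm, pow_mul, htp, one_pow, mul_one, hexp c hcm, mul_one]
    have h2 : x * c = g⁻¹ * x * g := by
      rw [← hcd]
      group
    rw [h2] at hcp
    have h3 : (g⁻¹ * x * g) ^ p = g⁻¹ * x ^ p * g := by
      have := conj_pow (i := p) (a := g⁻¹) (b := x)
      rwa [inv_inv] at this
    rw [h3] at hcp
    calc g * x ^ p = g * (g⁻¹ * x ^ p * g) := by rw [hcp]
      _ = x ^ p * g := by group
  have hbot : ⁅pw p K, (⊤ : Subgroup H)⁆ = ⊥ := by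
    rw [Subgroup.commutator_eq_bot_iff_le_centralizer]
    intro y hy
    rw [Subgroup.mem_centralizer_iff]
    intro z _
    exact (Subgroup.mem_center_iff.1 (hcen hy)) z
  rw [hbot, Subgroup.card_bot] at hcard
  exact hp1.one_lt.ne hcard


end LDM
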