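import Pool.Agent.LDM.Defs

/-! LDM-PHom. The p-th power map is a homomorphism modulo `L = pw p (pw p M)` on a powerfully
embedded subgroup `M`.

PLAN. `L` is normal (`pw_normal` twice); work modulo `L` (in `G ⧸ L`, or by hand).
p odd (`qq p = p`): by `h2`, `pw p M` is central modulo `L`. For `x, y ∈ M` the element
`c = y⁻¹ x⁻¹ y x` (so `y x = x y c`) lies in `⁅M,⊤⁆ ≤ pw p M`, so it is central modulo `L` and
`c^p ∈ L`. Induction: `(x y)^n ≡ x^n y^n c^(n(n-1)/2)` modulo `L`; at `n = p` the exponent is a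
multiple of `p`, so `(x y)^p ≡ x^p y^p`.
p = 2 (`qq 2 = 4`): `c ∈ ⁅M,⊤⁆ ≤ pw 4 M ≤ pw 2 (pw 2 M) = L` (as `y^4 = (y^2)^2`), so `x, y` commute
modulo `L` and `(x y)^2 ≡ x^2 y^2`. -/

universe u

namespace LDM

private theorem ph_yx {Q : Type u} [Group Q] {X Y c : Q} (hc : ∀ g : Q, c * g = g * c)
    (h : Y * X = X * Y * c) (n : ℕ) : Y ^ n * X = X * Y ^ n * c ^ n := by
  have hcn : ∀ (m : ℕ) (g : Q), c ^ m * g = g * c ^ m := fun m g =>
    ((show Commute c g from hc g).pow_left m).eq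
  induction n with
  | zero => simp
  | succ n ih =>
    calc Y ^ (n + 1) * X = Y ^ n * (Y * X) := by rw [pow_succ, mul_assoc]
      _ = Y ^ n * (X * Y * c) := by rw [h]
      _ = Y ^ n * X * (Y * c) := by simp only [mul_assoc]
      _ = X * Y ^ n * c ^ n * (Y * c) := by rw [ih]
      _ = X * Y ^ n * (c ^ n * Y) * c := by simp only [mul_assoc]
      _ = X * Y ^ n * (Y * c ^ n) * c := by rw [hcn]
      _ = X * (Y ^ n * Y) * (c ^ n * c) := by simp only [mul_assoc]
      _ = X * Y ^ (n + 1) * c ^ (n + 1) := by rw [← pow_succ, ← pow_succ]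

private theorem ph_pow {Q : Type u} [Group Q] {X Y c : Q} (hc : ∀ g : Q, c * g = g * c)
    (h : Y * X = X * Y * c) (n : ℕ) : (X * Y) ^ n = X ^ n * Y ^ n * c ^ (n.choose 2) := by
  have hcn : ∀ (m : ℕ) (g : Q), c ^ m * g = g * c ^ m := fun m g =>
    ((show Commute c g from hc g).pow_left m).eq
  induction n with
  | zero => simp
  | succ n ih =>
    have e : (n + 1).choose 2 = n + n.choose 2 := by
      rw [Nat.choose_succ_succ' n 1, Nat.choose_one_right]
    calc (X * Y) ^ (n + 1) = X ^ n * Y ^ n * c ^ (n.choose 2) * (X * Y) := by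
          rw [pow_succ, ih]
      _ = X ^ n * Y ^ n * (c ^ (n.choose 2) * (X * Y)) := by simp only [mul_assoc]
      _ = X ^ n * Y ^ n * (X * Y * c ^ (n.choose 2)) := by rw [hcn]
      _ = X ^ n * (Y ^ n * X) * (Y * c ^ (n.choose 2)) := by simp only [mul_assoc]
      _ = X ^ n * (X * Y ^ n * c ^ n) * (Y * c ^ (n.choose 2)) := by rw [ph_yx hc h]
      _ = (X ^ n * X) * Y ^ n * (c ^ n * Y) * c ^ (n.choose 2) := by simp only [mul_assoc]
      _ = (X ^ n * X) * Y ^ n * (Y * c ^ n) * c ^ (n.choose 2) := by rw [hcn]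
      _ = (X ^ n * X) * (Y ^ n * Y) * (c ^ n * c ^ (n.choose 2)) := by simp only [mul_assoc]
      _ = X ^ (n + 1) * Y ^ (n + 1) * c ^ ((n + 1).choose 2) := by
          rw [← pow_succ, ← pow_succ, ← pow_add, e]

theorem pow_mul_mod {G : Type u} [Group G] {p : ℕ} [Fact p.Prime] (M : Subgroup G)
    (hM : M.Normal) (h1 : ⁅M, (⊤ : Subgroup G)⁆ ≤ pw (qq p) M)
    (h2 : ⁅pw p M, (⊤ : Subgroup G)⁆ ≤ pw (qq p) (pw p M)) :
    ∀ x ∈ M, ∀ y ∈ M, (x ^ p * y ^ p)⁻¹ * (x * y) ^ p ∈ pw p (pw p M) := by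
  intro x hx y hy
  have hL : (pw p (pw p M)).Normal := pw_normal (pw_normal hM)
  set L := pw p (pw p M) with hLdef
  have hcomm : y⁻¹ * x⁻¹ * y * x ∈ ⁅M, (⊤ : Subgroup G)⁆ := by
    have h3 := Subgroup.commutator_mem_commutator (M.inv_mem hy) (Subgroup.mem_top x⁻¹)
    rw [commutatorElement_def, inv_inv, inv_inv] at h3
    exact h3
  have hyx : ((y : G) : G ⧸ L) * (x : G ⧸ L) =
      (x : G ⧸ L) * (y : G ⧸ L) * ((y⁻¹ * x⁻¹ * y * x : G) : G ⧸ L) := by
    rw [← QuotientGroup.mk_mul, ← QuotientGroup.mk_mul, ← QuotientGroup.mk_mul]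
    congr 1
    group
  have hgoal : ((x : G ⧸ L) * (y : G ⧸ L)) ^ p = (x : G ⧸ L) ^ p * (y : G ⧸ L) ^ p := by
    by_cases hp2 : p = 2
    · subst hp2
      have hc1 : ((y⁻¹ * x⁻¹ * y * x : G) : G ⧸ L) = 1 := by
        rw [QuotientGroup.eq_one_iff]
        have h4 : y⁻¹ * x⁻¹ * y * x ∈ pw 4 M := by
          have h5 := h1 hcomm
          unfold qq at h5
          rwa [if_pos rfl] at h5
        have h6 : pw 4 M ≤ L := by
          rw [pw_le_iff]
          intro z hz
          have e : z ^ 4 = (z ^ 2) ^ 2 := by rw [← pow_mul]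
          rw [e]
          exact pow_mem_pw (pow_mem_pw hz)
        exact h6 h4
      rw [hc1, mul_one] at hyx
      exact Commute.mul_pow (show Commute (x : G ⧸ L) (y : G ⧸ L) from hyx.symm) 2
    · have hqq : qq p = p := by
        unfold qq
        rw [if_neg hp2]
      rw [hqq] at h1 h2
      have hcM : y⁻¹ * x⁻¹ * y * x ∈ pw p M := h1 hcomm
      have hcen : ∀ g : G ⧸ L, ((y⁻¹ * x⁻¹ * y * x : G) : G ⧸ L) * g =
          g * ((y⁻¹ * x⁻¹ * y * x : G) : G ⧸ L) := by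
        intro g
        obtain ⟨g, rfl⟩ := QuotientGroup.mk_surjective g
        generalize y⁻¹ * x⁻¹ * y * x = z at hcM ⊢
        have h3 := h2 (Subgroup.commutator_mem_commutator (Subgroup.inv_mem _ hcM)
          (Subgroup.mem_top g⁻¹))
        rw [commutatorElement_def, inv_inv, inv_inv] at h3
        rw [← QuotientGroup.mk_mul, ← QuotientGroup.mk_mul, eq_comm, QuotientGroup.eq]
        have e : (g * z)⁻¹ * (z * g) = z⁻¹ * g⁻¹ * z * g := by group
        rw [e]
        exact h3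
      have hcp : ((y⁻¹ * x⁻¹ * y * x : G) : G ⧸ L) ^ p = 1 := by
        rw [← QuotientGroup.mk_pow, QuotientGroup.eq_one_iff]
        exact pow_mem_pw hcM
      rw [ph_pow hcen hyx p]
      have hpr : p.Prime := Fact.out
      have h2p : 2 < p := lt_of_le_of_ne hpr.two_le (Ne.symm hp2)
      obtain ⟨k, hk⟩ := hpr.dvd_choose_self (k := 2) two_ne_zero h2p
      rw [hk, pow_mul, hcp, one_pow, mul_one]
  rw [← QuotientGroup.eq, QuotientGroup.mk_mul, QuotientGroup.mk_pow, QuotientGroup.mk_pow,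
    QuotientGroup.mk_pow, QuotientGroup.mk_mul]
  exact hgoal.symm

end LDM
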