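import Pool.Agent.LDM.Defs

/-! LDM-Phi. `deltaP p H` is the dimension of `H / H^p[H,H]`: this quotient is a finite-dimensional
vector space over `ZMod p`, and every surjection of `H` onto a power of `Z/p` factors through it. -/

universe u

namespace LDM

open scoped commutatorElement

private theorem card_fin_fun (n p : ℕ) : Nat.card (Fin n → ZMod p) = p ^ n := by
  rw [Nat.card_fun, Nat.card_zmod, Nat.card_fin]

private theorem elem_mod {M : Type u} [AddCommGroup M] (p : ℕ) [Fact p.Prime] [Module (ZMod p) M]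
    [Finite M] :
    ∃ n : ℕ, Nat.card M = p ^ n ∧ ∃ f : M →+ (Fin n → ZMod p), Function.Surjective f := by
  have : Module.Finite (ZMod p) M := Module.Finite.of_finite
  let e := (Module.finBasis (ZMod p) M).equivFun
  refine ⟨Module.finrank (ZMod p) M, ?_, e.toLinearMap.toAddMonoidHom, e.surjective⟩
  have h1 : Nat.card M = Nat.card (Fin (Module.finrank (ZMod p) M) → ZMod p) :=
    Nat.card_congr e.toEquiv
  rw [h1, card_fin_fun]

private theorem elem_ab {Q : Type u} [Group Q] (p : ℕ) [Fact p.Prime] (hfg : Group.FG Q)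
    (hc : ∀ x y : Q, x * y = y * x) (hp : ∀ x : Q, x ^ p = 1) :
    ∃ n : ℕ, Nat.card Q = p ^ n ∧
      ∃ f : Q →* Multiplicative (Fin n → ZMod p), Function.Surjective f := by
  classical
  letI : CommGroup Q := { (inferInstance : Group Q) with mul_comm := hc }
  have hp0 : 0 < p := (Fact.out : p.Prime).pos
  have hfin : Finite Q := by
    refine CommGroup.finite_of_fg_torsion Q ?_
    intro x
    exact isOfFinOrder_iff_pow_eq_one.2 ⟨p, hp0, hp x⟩
  letI : Module (ZMod p) (Additive Q) := AddCommGroup.zmodModule (n := p) (by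
    intro x
    exact hp x.toMul)
  have : Finite (Additive Q) := hfin
  obtain ⟨n, hn, f, hf⟩ := elem_mod (M := Additive Q) p
  refine ⟨n, hn, ?_⟩
  refine ⟨{ toFun := fun x => Multiplicative.ofAdd (f (Additive.ofMul x))
            map_one' := by rw [ofMul_one, map_zero, ofAdd_zero]
            map_mul' := fun x y => by rw [ofMul_mul, map_add, ofAdd_add] }, ?_⟩
  intro y
  obtain ⟨x, hx⟩ := hf y.toAdd
  refine ⟨x.toMul, ?_⟩
  change Multiplicative.ofAdd (f x) = y
  rw [hx]
  rfl

private theorem fr_top {A : Type u} [Group A] (p : ℕ) [Fact p.Prime] (hA : Group.FG A) :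
    ∃ n : ℕ, (Fr p (⊤ : Subgroup A)).index = p ^ n ∧ deltaP p A = n := by
  classical
  have hp0 : 0 < p := (Fact.out : p.Prime).pos
  have hp1 : 1 < p := (Fact.out : p.Prime).one_lt
  haveI : (Fr p (⊤ : Subgroup A)).Normal := Fr_normal inferInstance
  have hc : ∀ x y : A ⧸ Fr p (⊤ : Subgroup A), x * y = y * x := by
    intro x y
    obtain ⟨a, rfl⟩ := QuotientGroup.mk'_surjective _ x
    obtain ⟨b, rfl⟩ := QuotientGroup.mk'_surjective _ y
    rw [← map_mul, ← map_mul]
    refine (QuotientGroup.eq).2 ?_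
    have h1 : ⁅b⁻¹, a⁻¹⁆ ∈ Fr p (⊤ : Subgroup A) :=
      (le_sup_right : ⁅(⊤ : Subgroup A), (⊤ : Subgroup A)⁆ ≤ Fr p (⊤ : Subgroup A))
        (Subgroup.commutator_mem_commutator (Subgroup.mem_top _) (Subgroup.mem_top _))
    have h2 : (a * b)⁻¹ * (b * a) = ⁅b⁻¹, a⁻¹⁆ := by
      rw [commutatorElement_def]
      group
    rw [h2]
    exact h1
  have hpow : ∀ x : A ⧸ Fr p (⊤ : Subgroup A), x ^ p = 1 := by
    intro x
    obtain ⟨a, rfl⟩ := QuotientGroup.mk'_surjective _ x
    rw [← map_pow]
    exact (QuotientGroup.eq_one_iff _).2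
      ((le_sup_left : pw p (⊤ : Subgroup A) ≤ Fr p (⊤ : Subgroup A))
        (pow_mem_pw (Subgroup.mem_top a)))
  have hQfg : Group.FG (A ⧸ Fr p (⊤ : Subgroup A)) := inferInstance
  obtain ⟨n, hn, f, hf⟩ := elem_ab p hQfg hc hpow
  refine ⟨n, ?_, ?_⟩
  · rw [Subgroup.index_eq_card, hn]
  · refine le_antisymm ?_ ?_
    · refine iSup₂_le fun m hm => ?_
      obtain ⟨g, hg⟩ := hm
      have hker : Fr p (⊤ : Subgroup A) ≤ g.ker := by
        refine sup_le (pw_le_iff.2 fun y _ => ?_) (Subgroup.commutator_le.2 fun x _ y _ => ?_)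
        · rw [MonoidHom.mem_ker, map_pow]
          have h3 : p • (g y).toAdd = 0 := by
            funext i
            rw [Pi.smul_apply, nsmul_eq_mul, CharP.cast_eq_zero, zero_mul]
            rfl
          exact congrArg Multiplicative.ofAdd h3
        · rw [MonoidHom.mem_ker, map_commutatorElement]
          exact commutatorElement_eq_one_iff_mul_comm.2 (mul_comm _ _)
      have hsurj : Function.Surjective (QuotientGroup.lift (Fr p (⊤ : Subgroup A)) g hker) := by
        intro y
        obtain ⟨a, ha⟩ := hg y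
        exact ⟨(a : A ⧸ Fr p (⊤ : Subgroup A)), ha⟩
      haveI : Finite (A ⧸ Fr p (⊤ : Subgroup A)) := by
        refine Nat.finite_of_card_ne_zero ?_
        rw [hn]
        exact pow_ne_zero _ hp0.ne'
      have hcard := Nat.card_le_card_of_surjective _ hsurj
      have h4 : Nat.card (Multiplicative (Fin m → ZMod p)) = p ^ m := by
        have h5 : Nat.card (Multiplicative (Fin m → ZMod p)) = Nat.card (Fin m → ZMod p) := rfl
        rw [h5, card_fin_fun]
      rw [h4, hn] at hcard
      exact Nat.cast_le.2 ((Nat.pow_le_pow_iff_right hp1).1 hcard)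
    · refine le_iSup₂_of_le n ⟨f.comp (QuotientGroup.mk' _), ?_⟩ le_rfl
      exact hf.comp (QuotientGroup.mk'_surjective _)

theorem fr_relIndex {G : Type u} [Group G] (p : ℕ) [Fact p.Prime] (H : Subgroup G) (hH : H.FG) :
    ∃ n : ℕ, (Fr p H).relIndex H = p ^ n ∧ deltaP p H = n := by
  have h1 : (Fr p H).subgroupOf H = Fr p (⊤ : Subgroup H) := by
    have h2 : (Fr p (⊤ : Subgroup H)).map H.subtype = Fr p H := by
      rw [map_Fr, ← MonoidHom.range_eq_map, Subgroup.range_subtype]
    rw [← h2]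
    exact Subgroup.comap_map_eq_self_of_injective H.subtype_injective _
  obtain ⟨n, hn, hd⟩ := fr_top (A := H) p ((Group.fg_iff_subgroup_fg H).2 hH)
  refine ⟨n, ?_, hd⟩
  rw [Subgroup.relIndex, h1, hn]

theorem deltaP_le_of_surj {A B : Type u} [Group A] [Group B] (p : ℕ) (f : A →* B)
    (hf : Function.Surjective f) : deltaP p B ≤ deltaP p A := by
  refine iSup₂_le fun n hn => ?_
  obtain ⟨g, hg⟩ := hn
  exact le_iSup₂_of_le n ⟨g.comp f, hg.comp hf⟩ le_rfl

/-- `deltaP` is a group invariant. -/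
theorem deltaP_congr {A B : Type u} [Group A] [Group B] (p : ℕ) (f : A ≃* B) :
    deltaP p A = deltaP p B :=
  le_antisymm (deltaP_le_of_surj p f.symm.toMonoidHom f.symm.surjective)
    (deltaP_le_of_surj p f.toMonoidHom f.surjective)

/-- A finite-index subgroup of a finitely generated group is finitely generated, and its
`p`-Frattini subgroup has finite index in the group. -/
theorem fr_finiteIndex {G : Type u} [Group G] [Group.FG G] (p : ℕ) [Fact p.Prime]
    (H : Subgroup G) (hH : H.FiniteIndex) : H.FG ∧ (Fr p H).FiniteIndex := by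
  have h1 : Group.FG H := Subgroup.fg_of_index_ne_zero H
  have h2 : H.FG := (Group.fg_iff_subgroup_fg H).1 h1
  obtain ⟨n, hn, -⟩ := fr_relIndex p H h2
  refine ⟨h2, ⟨?_⟩⟩
  rw [← Subgroup.relIndex_mul_index (Fr_le p H), hn]
  exact mul_ne_zero (pow_ne_zero _ (Fact.out : p.Prime).pos.ne') hH.index_ne_zero

end LDM
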