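import Pool.Agent.LDM.Count
import Pool.Agent.LDM.LMOdd
import Pool.Agent.LDM.LMTwo

/-! LDM-Quot. The order of a small normal subgroup of a finite p-group.

PLAN. p odd: `lm_odd` gives `⁅N,W⁆ ≤ pw p N`, so `⁅N,N⁆ ≤ pw p N = pw (qq p) N`. p = 2: `N ≤ V ≤ pw 2 W`,
`lm_two` gives `⁅N, pw 2 W⁆ ≤ pw 4 N`, so `⁅N,N⁆ ≤ pw 4 N = pw (qq 2) N`. In both cases
`⁅N,N⁆ ≤ pw p N` (`y^4 = (y^2)^2`), so `Fr p N = pw p N` and `(pw p N).relIndex N ≤ p^r`. Pass to the
group `↥N`: `pw n (⊤ : Subgroup N)` maps to `pw n N` under `N.subtype` (`map_pw`), so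
`⁅(⊤ : Subgroup N), ⊤⁆ ≤ pw (qq p) ⊤` and `(pw p (⊤ : Subgroup N)).index = (pw p N).relIndex N ≤ p^r`.
Let `p^k` be the largest power of `p` dividing `e` (or the gcd of `e` and `Nat.card N = p^l`):
`x^(p^k) = 1` for all `x ∈ N` because `x^e = 1` and `x^(p^l) = 1` (`pow_gcd_eq_one`). `card_le` gives
`Nat.card N ≤ p^(k*r) = (p^k)^r ≤ e^r`. -/

universe u

namespace LDM

theorem quot_bound {P : Type u} [Group P] [Finite P] {p : ℕ} [Fact p.Prime] (hP : IsPGroup p P)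
    (r : ℕ) (W V N : Subgroup P) (hWn : W.Normal) (hNn : N.Normal)
    (hNV : N ≤ V) (hVW : V ≤ W) (h2 : p = 2 → V ≤ pw 2 W)
    (hW : ∀ ρ : P →* Matrix.GeneralLinearGroup (Fin r) (ZMod p), W ≤ ρ.ker)
    (hd : (Fr p N).relIndex N ≤ p ^ r) (e : ℕ) (he : 0 < e) (hx : ∀ x : P, x ^ e = 1) :
    Nat.card N ≤ e ^ r := by
  have hcomm : ⁅N, N⁆ ≤ pw (qq p) N ∧ pw (qq p) N ≤ pw p N := by
    by_cases hp : p = 2
    · subst hp
      have h3 := lm_two hP r W N hWn hNn (hNV.trans (h2 rfl)) hW hd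
      have h4 : qq 2 = 4 := rfl
      rw [h4]
      refine ⟨(Subgroup.commutator_mono le_rfl (hNV.trans (h2 rfl))).trans h3, ?_⟩
      rw [pw_le_iff]
      intro y hy
      have h5 : y ^ 4 = (y ^ 2) ^ 2 := by rw [← pow_mul]
      rw [h5]
      exact pow_mem_pw (N.pow_mem hy 2)
    · have h3 := lm_odd hp hP r W N hWn hNn (hNV.trans hVW) hW hd
      have h4 : qq p = p := if_neg hp
      rw [h4]
      exact ⟨(Subgroup.commutator_mono le_rfl (hNV.trans hVW)).trans h3, le_rfl⟩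
  have hFr : Fr p N = pw p N := sup_eq_left.2 (hcomm.1.trans hcomm.2)
  rw [hFr] at hd
  have htop : (⊤ : Subgroup N).map N.subtype = N := by
    rw [← MonoidHom.range_eq_map, Subgroup.range_subtype]
  have hmap : ∀ n : ℕ, (pw n (⊤ : Subgroup N)).map N.subtype = pw n N := by
    intro n
    rw [map_pw, htop]
  have h1 : ⁅(⊤ : Subgroup N), (⊤ : Subgroup N)⁆ ≤ pw (qq p) ⊤ := by
    rw [← Subgroup.map_subtype_le_map_subtype, hmap, Subgroup.map_commutator, htop]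
    exact hcomm.1
  have hidx : (pw p (⊤ : Subgroup N)).index ≤ p ^ r := by
    have h3 : (pw p N).subgroupOf N = pw p (⊤ : Subgroup N) := by
      rw [← hmap p, Subgroup.subgroupOf]
      exact Subgroup.comap_map_eq_self_of_injective N.subtype_injective _
    rw [← h3]
    exact hd
  obtain ⟨l, hl⟩ := (hP.to_subgroup N).exists_card_eq
  obtain ⟨k, _, hk⟩ := (Nat.dvd_prime_pow (Fact.out : p.Prime)).1 (Nat.gcd_dvd_right e (p ^ l))
  have hkN : ∀ x : N, x ^ (p ^ k) = 1 := by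
    intro x
    have h3 : x ^ e = 1 := by
      apply Subtype.ext
      rw [Subgroup.coe_pow, hx, Subgroup.coe_one]
    have h4 : x ^ (p ^ l) = 1 := by
      rw [← hl]
      exact pow_card_eq_one'
    rw [← hk]
    exact pow_gcd_eq_one.2 ⟨h3, h4⟩
  have hke : p ^ k ≤ e := by
    rw [← hk]
    exact Nat.le_of_dvd he (Nat.gcd_dvd_left e (p ^ l))
  calc Nat.card N ≤ p ^ (k * r) := card_le (hP.to_subgroup N) h1 r hidx k hkN
    _ = (p ^ k) ^ r := pow_mul p k r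
    _ ≤ e ^ r := Nat.pow_le_pow_left hke r

end LDM
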