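import Pool.Agent.LDM.Defs

/-! LDM-Red. Two reductions in finite p-groups.

`red` PLAN. Suppose `T` is not contained in `L`. Among the (finitely many) normal subgroups `K` of
`G` with `L ≤ K` and not `T ≤ K` (`L` is one) choose a maximal one. Put `H = G ⧸ K`,
`π = QuotientGroup.mk' K`. Then `L.map π = ⊥`, and `T' = T.map π` is nontrivial and normal. Every
nontrivial normal subgroup `X` of `H` contains `T'` (its comap is a normal subgroup strictly
containing `K`, so it contains `T` by maximality of `K`). `H` is a nontrivial finite p-group, so its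
center is nontrivial (`IsPGroup.center_nontrivial`) and contains an element `z` of order `p`
(Cauchy, `exists_prime_orderOf_dvd_card`); `X = Subgroup.zpowers z` is normal (central), of order
`p`, and contains `T'`. So `T'` is central, and its order divides `p` and is not 1, so it is `p`.

`pw_self` PLAN. Let `M ≤ pw p M`. If `M ≠ ⊥`: `M` (as a group) is a nontrivial finite p-group, hence
nilpotent/solvable, so `⁅M,M⁆ < M`; `Q = M/⁅M,M⁆` is a nontrivial finite commutative p-group in which
(because `M = pw p M`, the image of a generating set of p-th powers) every element is a p-th power,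
so `x ↦ x^p` is surjective, hence injective on the finite group `Q`; but `Q` has an element of
order `p` (Cauchy). Contradiction. (Alternatively: a maximal subgroup of `M` is normal of index `p`
and contains all p-th powers.) -/

universe u

namespace LDM

theorem red {G : Type u} [Group G] [Finite G] {p : ℕ} [Fact p.Prime] (hG : IsPGroup p G)
    (T L : Subgroup G) (hT : T.Normal) (hL : L.Normal)
    (h : ∀ (H : Type u) (_ : Group H) (_ : Finite H) (π : G →* H), Function.Surjective π →
      IsPGroup p H → L.map π = ⊥ → T.map π ≤ Subgroup.center H →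
      Nat.card (T.map π) = p → False) : T ≤ L := by
  by_contra hTL
  obtain ⟨K, ⟨hKn, hLK, hTK⟩, hmax⟩ := Set.exists_max_image
    {K : Subgroup G | K.Normal ∧ L ≤ K ∧ ¬ T ≤ K} (fun K => Nat.card K) (Set.toFinite _)
    ⟨L, hL, le_rfl, hTL⟩
  have hsurj : Function.Surjective (QuotientGroup.mk' K) := QuotientGroup.mk'_surjective K
  have hpH : IsPGroup p (G ⧸ K) := hG.to_quotient K
  have hTne : T.map (QuotientGroup.mk' K) ≠ ⊥ := by
    rw [Ne, Subgroup.map_eq_bot_iff, QuotientGroup.ker_mk']
    exact hTK
  have hnt : Nontrivial (G ⧸ K) := by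
    obtain ⟨x, hx⟩ := (Subgroup.ne_bot_iff_exists_ne_one).1 hTne
    exact ⟨⟨(x : G ⧸ K), 1, fun h1 => hx (Subtype.ext h1)⟩⟩
  have hcn : Nontrivial (Subgroup.center (G ⧸ K)) := hpH.center_nontrivial
  have hdvd : p ∣ Nat.card (Subgroup.center (G ⧸ K)) := by
    rcases (hpH.to_subgroup (Subgroup.center (G ⧸ K))).card_eq_or_dvd with h1 | h1
    · exact absurd h1 (Finite.one_lt_card (α := Subgroup.center (G ⧸ K))).ne'
    · exact h1
  obtain ⟨z, hz⟩ := exists_prime_orderOf_dvd_card' (G := Subgroup.center (G ⧸ K)) p hdvd
  have hzo : orderOf (z : G ⧸ K) = p := by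
    rw [Subgroup.orderOf_coe, hz]
  have hXc : Subgroup.zpowers (z : G ⧸ K) ≤ Subgroup.center (G ⧸ K) := by
    rw [Subgroup.zpowers_le]
    exact z.2
  have hXn : (Subgroup.zpowers (z : G ⧸ K)).Normal := by
    refine ⟨fun n hn g => ?_⟩
    have h1 := Subgroup.mem_center_iff.1 (hXc hn) g
    rw [h1, mul_inv_cancel_right]
    exact hn
  have hTX : T.map (QuotientGroup.mk' K) ≤ Subgroup.zpowers (z : G ⧸ K) := by
    rw [Subgroup.map_le_iff_le_comap]
    by_contra hne
    have hKK : K ≤ (Subgroup.zpowers (z : G ⧸ K)).comap (QuotientGroup.mk' K) := by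
      intro k hk
      rw [Subgroup.mem_comap]
      have h1 : QuotientGroup.mk' K k = 1 := by
        rw [← MonoidHom.mem_ker, QuotientGroup.ker_mk']
        exact hk
      rw [h1]
      exact Subgroup.one_mem _
    have h2 := hmax _ ⟨hXn.comap (QuotientGroup.mk' K), hLK.trans hKK, hne⟩
    have h3 : K = (Subgroup.zpowers (z : G ⧸ K)).comap (QuotientGroup.mk' K) :=
      Subgroup.eq_of_le_of_card_ge hKK h2
    have h4 : (Subgroup.zpowers (z : G ⧸ K)) = ⊥ := by
      have h5 := Subgroup.map_comap_eq_self_of_surjective hsurj (Subgroup.zpowers (z : G ⧸ K))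
      rw [← h5, ← h3, Subgroup.map_eq_bot_iff, QuotientGroup.ker_mk']
    rw [Subgroup.zpowers_eq_bot] at h4
    rw [h4, orderOf_one] at hzo
    exact (Fact.out : p.Prime).one_lt.ne hzo
  have hcard : Nat.card (T.map (QuotientGroup.mk' K)) = p := by
    have h1 : Nat.card (T.map (QuotientGroup.mk' K)) ∣ p := by
      have h2 := Subgroup.card_dvd_of_le hTX
      rwa [Nat.card_zpowers, hzo] at h2
    rcases (Nat.dvd_prime (Fact.out : p.Prime)).1 h1 with h2 | h2
    · exact absurd ((Subgroup.card_eq_one).1 h2) hTne
    · exact h2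
  refine h (G ⧸ K) _ inferInstance (QuotientGroup.mk' K) hsurj hpH ?_ (hTX.trans hXc) hcard
  rw [Subgroup.map_eq_bot_iff, QuotientGroup.ker_mk']
  exact hLK

private theorem pw_top_comm {Q : Type u} [CommGroup Q] {p : ℕ} (h : pw p (⊤ : Subgroup Q) = ⊤) :
    Function.Surjective (powMonoidHom p : Q →* Q) := by
  have h1 : pw p (⊤ : Subgroup Q) ≤ (powMonoidHom p : Q →* Q).range := by
    rw [pw_le_iff]
    intro y _
    exact ⟨y, rfl⟩
  rw [h] at h1
  exact MonoidHom.range_eq_top.1 (top_le_iff.1 h1)

theorem pw_self {G : Type u} [Group G] [Finite G] {p : ℕ} [Fact p.Prime] (hG : IsPGroup p G)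
    (M : Subgroup G) (h : M ≤ pw p M) : M = ⊥ := by
  by_contra hM
  have hpM : IsPGroup p M := hG.to_subgroup M
  have hnt : Nontrivial M := (Subgroup.nontrivial_iff_ne_bot M).2 hM
  have hnil : Group.IsNilpotent M := hpM.isNilpotent
  have hlt : commutator M < ⊤ := IsSolvable.commutator_lt_top_of_nontrivial M
  have hpw : pw p (⊤ : Subgroup M) = ⊤ := by
    apply Subgroup.map_injective M.subtype_injective
    rw [map_pw, ← MonoidHom.range_eq_map, Subgroup.range_subtype]
    exact le_antisymm (pw_le p M) h
  have hQ : pw p (⊤ : Subgroup (Abelianization M)) = ⊤ := by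
    have h1 := map_pw (Abelianization.of (G := M)) p ⊤
    rw [hpw] at h1
    have h2 : (⊤ : Subgroup M).map (Abelianization.of (G := M)) = ⊤ := by
      rw [← MonoidHom.range_eq_map, MonoidHom.range_eq_top]
      exact QuotientGroup.mk'_surjective _
    rw [h2] at h1
    exact h1.symm
  have hsurj := pw_top_comm hQ
  have hinj : Function.Injective (powMonoidHom p : Abelianization M →* Abelianization M) :=
    Finite.injective_iff_surjective.2 hsurj
  have hntQ : Nontrivial (Abelianization M) := by
    by_contra hn
    rw [not_nontrivial_iff_subsingleton] at hn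
    apply hlt.ne
    rw [eq_top_iff]
    intro x _
    have h1 : Abelianization.of x = (1 : Abelianization M) := Subsingleton.elim _ _
    rw [← Abelianization.ker_of (G := M), MonoidHom.mem_ker]
    exact h1
  have hpQ : IsPGroup p (Abelianization M) := hpM.to_quotient (commutator M)
  have hdvd : p ∣ Nat.card (Abelianization M) := by
    rcases hpQ.card_eq_or_dvd with h1 | h1
    · exact absurd h1 (Finite.one_lt_card (α := Abelianization M)).ne'
    · exact h1
  obtain ⟨z, hz⟩ := exists_prime_orderOf_dvd_card' (G := Abelianization M) p hdvd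
  have h1 : (powMonoidHom p : Abelianization M →* Abelianization M) z =
      (powMonoidHom p : Abelianization M →* Abelianization M) 1 := by
    rw [map_one, powMonoidHom_apply, ← hz, pow_orderOf_eq_one]
  have h2 := hinj h1
  rw [h2, orderOf_one] at hz
  exact (Fact.out : p.Prime).one_lt.ne hz

end LDM
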