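import Pool.Agent.LDM.Upper
import Pool.Agent.LDM.AbGen

/-! LDM-UpDim. The upper bounds for `Dim` and `DimP`.

PLAN for `dim_le`. Unfold `Dim`; `iSup₂_le`: let `N₀` with `NS N₀`. Apply `upper` with `P` = all primes
and `F` = the set of `A` with `NS A`, `A ≤ N₀` and `(derivedSeries N₀ n).map N₀.subtype ≤ A` for some
`n`. `N₀ ∈ F` (`n = 0`). Closure: if `A ∈ F` with `n`, then `Fr p A` is normal (`Fr_normal`), of finite
index (`fr_finiteIndex`), `≤ A ≤ N₀`, and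
`(derivedSeries N₀ (n+1)).map N₀.subtype = ⁅(derivedSeries N₀ n).map _, (derivedSeries N₀ n).map _⁆
≤ ⁅A,A⁆ ≤ Fr p A` (`Subgroup.map_commutator`, `Subgroup.commutator_mono`). The result is `A ∈ F` with
`deltaP p A ≤ ⌊s⌋₊` for all primes `p`; `delta_le` (with `Group.FG A` from `fr_finiteIndex`,
`Group.fg_iff_subgroup_fg`) gives `delta A ≤ ⌊s⌋₊`; conclude with `iInf₂_le_of_le`.

PLAN for `dimP_le`. The same with `P = {p}` and `F` = the set of `A` with `NS A`, `A ≤ N₀` and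
`A.relIndex N₀` a power of `p`; closure: `(Fr p A).relIndex N₀ = (Fr p A).relIndex A * A.relIndex N₀`
is a power of `p` by `fr_relIndex`.

PLAN for `bgen`. Choose `c` for `A`. The map `(Fin k → Fin e) → Γ ⧸ A`, `n ↦` the class of
`∏ (c i)^(n i)`, is surjective: `A` is normal and `(c i)^e ∈ A`, so modulo `A` the exponents `m i : ℤ`
may be replaced by `m i % e`. So `A.index = Nat.card (Γ ⧸ A) ≤ e^k`. -/

universe u

namespace LDM

theorem dim_le {Γ : Type u} [Group Γ] [Group.FG Γ] (s : ℝ) (hs : 0 ≤ s)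
    (h : ∀ N₀ : Subgroup Γ, NS N₀ → ∃ C : ℝ, ∀ A : Subgroup Γ, NS A → A ≤ N₀ →
      (∃ n : ℕ, (derivedSeries N₀ n).map N₀.subtype ≤ A) →
      ∀ e : ℕ, 0 < e → (∀ x ∈ N₀, x ^ e ∈ A) → (A.relIndex N₀ : ℝ) ≤ C * (e : ℝ) ^ s) :
    Dim Γ ≤ (⌊s⌋₊ : ℕ∞) := by
  unfold Dim
  refine iSup₂_le fun N₀ hN₀ => ?_
  obtain ⟨C, hC⟩ := h N₀ hN₀
  have h0 : (derivedSeries N₀ 0).map N₀.subtype ≤ N₀ := by
    intro x hx
    obtain ⟨y, _, rfl⟩ := Subgroup.mem_map.1 hx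
    exact y.2
  obtain ⟨A, hA, hA2⟩ := upper N₀ {p | p.Prime} (fun p hp => hp)
    {A | NS A ∧ A ≤ N₀ ∧ ∃ n : ℕ, (derivedSeries N₀ n).map N₀.subtype ≤ A}
    ⟨hN₀, le_rfl, 0, h0⟩ (fun A hA => ⟨hA.1, hA.2.1⟩)
    (by
      rintro A ⟨hA1, hA2, n, hn⟩ p hp
      have : Fact p.Prime := ⟨hp⟩
      refine ⟨⟨Fr_normal hA1.1, (fr_finiteIndex p A hA1.2).2⟩, (Fr_le p A).trans hA2, n + 1, ?_⟩
      rw [derivedSeries_succ, Subgroup.map_commutator]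
      exact (Subgroup.commutator_mono hn hn).trans le_sup_right)
    s hs C (fun A hA e he hx => hC A hA.1 hA.2.1 hA.2.2 e he hx)
  have : Fact (Nat.Prime 2) := ⟨Nat.prime_two⟩
  have hfg : Group.FG A := (Group.fg_iff_subgroup_fg A).2 (fr_finiteIndex 2 A hA.1.2).1
  exact iInf₂_le_of_le A ⟨hA.1, hA.2.1⟩ (delta_le A ⌊s⌋₊ fun p hp => hA2 p hp)

theorem dimP_le {Γ : Type u} [Group Γ] [Group.FG Γ] (p : ℕ) [Fact p.Prime] (s : ℝ) (hs : 0 ≤ s)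
    (h : ∀ N₀ : Subgroup Γ, NS N₀ → ∃ C : ℝ, ∀ A : Subgroup Γ, NS A → A ≤ N₀ →
      (∃ m : ℕ, A.relIndex N₀ = p ^ m) →
      ∀ e : ℕ, 0 < e → (∀ x ∈ N₀, x ^ e ∈ A) → (A.relIndex N₀ : ℝ) ≤ C * (e : ℝ) ^ s) :
    DimP p Γ ≤ (⌊s⌋₊ : ℕ∞) := by
  unfold DimP
  refine iSup₂_le fun N₀ hN₀ => ?_
  obtain ⟨C, hC⟩ := h N₀ hN₀
  obtain ⟨A, hA, hA2⟩ := upper N₀ {p} (fun q hq => by
      rw [Set.mem_singleton_iff] at hq
      rw [hq]
      exact Fact.out)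
    {A | NS A ∧ A ≤ N₀ ∧ ∃ m : ℕ, A.relIndex N₀ = p ^ m}
    ⟨hN₀, le_rfl, 0, by rw [Subgroup.relIndex_self, pow_zero]⟩ (fun A hA => ⟨hA.1, hA.2.1⟩)
    (by
      rintro A ⟨hA1, hA2, m, hm⟩ q hq
      rw [Set.mem_singleton_iff] at hq
      subst hq
      obtain ⟨n, hn, _⟩ := fr_relIndex q A (fr_finiteIndex q A hA1.2).1
      refine ⟨⟨Fr_normal hA1.1, (fr_finiteIndex q A hA1.2).2⟩, (Fr_le q A).trans hA2, n + m, ?_⟩
      rw [← Subgroup.relIndex_mul_relIndex _ _ _ (Fr_le q A) hA2, hn, hm, pow_add])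
    s hs C (fun A hA e he hx => hC A hA.1 hA.2.1 hA.2.2 e he hx)
  exact iInf₂_le_of_le A ⟨hA.1, hA.2.1⟩ (hA2 p rfl)

theorem bgen {Γ : Type u} [Group Γ] (k : ℕ) (A : Subgroup Γ) (hA : NS A)
    (hc : ∃ c : Fin k → Γ, ∀ g : Γ, ∃ m : Fin k → ℤ,
      (List.ofFn fun i => c i ^ m i).prod⁻¹ * g ∈ A)
    (e : ℕ) (he : 0 < e) (hx : ∀ x : Γ, x ^ e ∈ A) : A.index ≤ e ^ k := by
  obtain ⟨c, hc⟩ := hc
  have hN : A.Normal := hA.1
  have hq : ∀ x : Γ, (QuotientGroup.mk x : Γ ⧸ A) ^ e = 1 := fun x => by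
    rw [← QuotientGroup.mk_pow, QuotientGroup.eq_one_iff]
    exact hx x
  have hsurj : Function.Surjective (fun n : Fin k → Fin e =>
      (QuotientGroup.mk (List.ofFn fun i => c i ^ ((n i : ℕ))).prod : Γ ⧸ A)) := by
    intro y
    obtain ⟨g, rfl⟩ := QuotientGroup.mk_surjective y
    obtain ⟨m, hm⟩ := hc g
    have he0 : (0 : ℤ) < (e : ℤ) := by exact_mod_cast he
    refine ⟨fun i => ⟨(m i % (e : ℤ)).toNat, ?_⟩, ?_⟩
    · have h1 := Int.emod_lt_of_pos (m i) he0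
      have h2 := Int.emod_nonneg (m i) he0.ne'
      omega
    · have h1 : (QuotientGroup.mk (List.ofFn fun i => c i ^ m i).prod : Γ ⧸ A) =
          QuotientGroup.mk g := QuotientGroup.eq.2 hm
      rw [← h1]
      show QuotientGroup.mk' A _ = QuotientGroup.mk' A _
      rw [map_list_prod, map_list_prod, List.map_ofFn, List.map_ofFn]
      congr 2
      funext i
      show QuotientGroup.mk' A (c i ^ (m i % (e : ℤ)).toNat) = QuotientGroup.mk' A (c i ^ m i)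
      have h2 : (QuotientGroup.mk' A (c i)) ^ e = 1 := hq (c i)
      rw [map_pow, map_zpow, zpow_eq_zpow_emod' (m i) h2, ← zpow_natCast,
        Int.toNat_of_nonneg (Int.emod_nonneg (m i) he0.ne')]
  have h1 : Nat.card (Γ ⧸ A) ≤ Nat.card (Fin k → Fin e) := Nat.card_le_card_of_surjective _ hsurj
  have h2 : Nat.card (Fin k → Fin e) = e ^ k := by
    rw [Nat.card_eq_fintype_card, Fintype.card_fun, Fintype.card_fin, Fintype.card_fin]
  rw [h2] at h1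
  exact h1

end LDM
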