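import Pool.Agent.LDM.Phi

/-! LDM-Upper. Polynomial index growth in a family of subgroups closed under `A ↦ A^p[A,A]` forces
small generation somewhere.

PLAN for `sup_arg`. Let `M = sSup (R '' F)` (bounded above by `C`, nonempty), `M > 0`. Choose
`a ∈ F` with `R a > M / c` (`exists_lt_of_lt_csSup`, as `M / c < M`). If `bad a`, then `b ∈ F` with
`R b ≥ c R a > M`, contradiction.

PLAN for `upper`. For `A ∈ F` let `E A` be the least `e > 0` with `x^e ∈ A` for all `x ∈ N₀` (exists: `A`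
is normal of finite index `m`, `x^m ∈ A`), and `R A = (A.relIndex N₀) / (E A)^s > 0`. `hC` gives
`R A ≤ C`. Let `bad A` mean that `¬ deltaP p A ≤ ⌊s⌋₊` for some `p ∈ Π`. Take such a `p` and
`B = Fr p A ∈ F`. By `fr_relIndex` (`A` is finitely generated by `fr_finiteIndex`)
`(Fr p A).relIndex A = p^d` with `d = deltaP p A ≥ ⌊s⌋₊ + 1`. So
`B.relIndex N₀ = p^d * A.relIndex N₀` (`Subgroup.relIndex_mul_relIndex`). And `E B ≤ p * E A`: for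
`x ∈ N₀`, `x^(E A * p) = (x^(E A))^p ∈ pw p A ≤ Fr p A`. Hence
`R B ≥ p^d / p^s * R A = p^(d - s) R A ≥ 2^(⌊s⌋₊ + 1 - s) R A`, and `c = 2^(⌊s⌋₊ + 1 - s) > 1`. Apply
`sup_arg` (`F` as a set of subgroups). -/

universe u

namespace LDM

theorem sup_arg {ι : Type*} (F : Set ι) (hne : F.Nonempty) (R : ι → ℝ) (C : ℝ)
    (hpos : ∀ a ∈ F, 0 < R a) (hC : ∀ a ∈ F, R a ≤ C) (c : ℝ) (hc : 1 < c) (bad : ι → Prop)
    (hstep : ∀ a ∈ F, bad a → ∃ b ∈ F, c * R a ≤ R b) : ∃ a ∈ F, ¬ bad a := by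
  have hbdd : BddAbove (R '' F) := ⟨C, by rintro _ ⟨a, ha, rfl⟩; exact hC a ha⟩
  have hne' : (R '' F).Nonempty := hne.image R
  obtain ⟨a0, ha0⟩ := hne
  have hM : 0 < sSup (R '' F) := (hpos a0 ha0).trans_le (le_csSup hbdd ⟨a0, ha0, rfl⟩)
  have hlt : sSup (R '' F) / c < sSup (R '' F) := div_lt_self hM hc
  obtain ⟨_, ⟨a, ha, rfl⟩, hlta⟩ := exists_lt_of_lt_csSup hne' hlt
  refine ⟨a, ha, fun hbad => ?_⟩
  obtain ⟨b, hb, hle⟩ := hstep a ha hbad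
  have h1 : R b ≤ sSup (R '' F) := le_csSup hbdd ⟨b, hb, rfl⟩
  have h2 : sSup (R '' F) < c * R a := by
    rw [div_lt_iff₀ (by linarith)] at hlta
    linarith [mul_comm c (R a)]
  linarith

theorem upper {Γ : Type u} [Group Γ] [Group.FG Γ] (N₀ : Subgroup Γ) (P : Set ℕ)
    (hP : ∀ p ∈ P, p.Prime) (F : Set (Subgroup Γ)) (h0 : N₀ ∈ F)
    (hF : ∀ A ∈ F, NS A ∧ A ≤ N₀) (hcl : ∀ A ∈ F, ∀ p ∈ P, Fr p A ∈ F)
    (s : ℝ) (hs : 0 ≤ s) (C : ℝ)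
    (hC : ∀ A ∈ F, ∀ e : ℕ, 0 < e → (∀ x ∈ N₀, x ^ e ∈ A) →
      (A.relIndex N₀ : ℝ) ≤ C * (e : ℝ) ^ s) :
    ∃ A ∈ F, ∀ p ∈ P, deltaP p A ≤ (⌊s⌋₊ : ℕ∞) := by
  classical
  set E : Subgroup Γ → ℕ := fun A => sInf {e : ℕ | 0 < e ∧ ∀ x ∈ N₀, x ^ e ∈ A} with hE
  have hEmem : ∀ A ∈ F, 0 < E A ∧ ∀ x ∈ N₀, x ^ (E A) ∈ A := by
    intro A hA
    have hne : {e : ℕ | 0 < e ∧ ∀ x ∈ N₀, x ^ e ∈ A}.Nonempty := by
      obtain ⟨⟨hn, hfi⟩, -⟩ := hF A hA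
      have := hn
      exact ⟨A.index, Nat.pos_of_ne_zero hfi.index_ne_zero, fun x _ => A.pow_index_mem x⟩
    exact Nat.sInf_mem hne
  have hrpos : ∀ A ∈ F, (0 : ℝ) < (A.relIndex N₀ : ℝ) := by
    intro A hA
    obtain ⟨⟨hn, hfi⟩, -⟩ := hF A hA
    have := hfi
    have h : A.relIndex N₀ ≠ 0 := by
      have h2 : (A.subgroupOf N₀).FiniteIndex := inferInstance
      exact h2.index_ne_zero
    exact_mod_cast Nat.pos_of_ne_zero h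
  set R : Subgroup Γ → ℝ := fun A => (A.relIndex N₀ : ℝ) / ((E A : ℝ) ^ s) with hR
  have hEs : ∀ A ∈ F, (0 : ℝ) < (E A : ℝ) ^ s := fun A hA =>
    Real.rpow_pos_of_pos (by exact_mod_cast (hEmem A hA).1) s
  have hc : (1 : ℝ) < (2 : ℝ) ^ ((⌊s⌋₊ : ℝ) + 1 - s) :=
    Real.one_lt_rpow (by norm_num) (by linarith [Nat.lt_floor_add_one s])
  obtain ⟨A, hA, hgood⟩ := sup_arg F ⟨N₀, h0⟩ R C
    (fun A hA => div_pos (hrpos A hA) (hEs A hA))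
    (fun A hA => by
      rw [hR]
      simp only
      rw [div_le_iff₀ (hEs A hA)]
      exact hC A hA (E A) (hEmem A hA).1 (hEmem A hA).2)
    _ hc (fun A => ∃ p ∈ P, ¬ deltaP p A ≤ (⌊s⌋₊ : ℕ∞)) (by
      rintro A hA ⟨p, hpP, hbad⟩
      have hp := hP p hpP
      haveI : Fact p.Prime := ⟨hp⟩
      obtain ⟨⟨hn, hfi⟩, hAN⟩ := hF A hA
      obtain ⟨hfg, -⟩ := fr_finiteIndex p A hfi
      obtain ⟨d, hd1, hd2⟩ := fr_relIndex p A hfg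
      have hd : ⌊s⌋₊ + 1 ≤ d := by
        rw [hd2] at hbad
        by_contra hlt
        exact hbad (by exact_mod_cast (by omega : d ≤ ⌊s⌋₊))
      refine ⟨Fr p A, hcl A hA p hpP, ?_⟩
      have hB := hcl A hA p hpP
      have hidx : ((Fr p A).relIndex N₀ : ℝ) = (p : ℝ) ^ d * (A.relIndex N₀ : ℝ) := by
        have h := Subgroup.relIndex_mul_relIndex (Fr p A) A N₀ (Fr_le p A) hAN
        rw [hd1] at h
        exact_mod_cast h.symm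
      have hEB : E (Fr p A) ≤ E A * p := by
        refine Nat.sInf_le ⟨Nat.mul_pos (hEmem A hA).1 hp.pos, fun x hx => ?_⟩
        rw [pow_mul]
        exact (le_sup_left : pw p A ≤ Fr p A) (pow_mem_pw ((hEmem A hA).2 x hx))
      have hp0 : (0 : ℝ) < p := by exact_mod_cast hp.pos
      have hEA0 : (0 : ℝ) < (E A : ℝ) := by exact_mod_cast (hEmem A hA).1
      have hEBs : ((E (Fr p A) : ℕ) : ℝ) ^ s ≤ (E A : ℝ) ^ s * (p : ℝ) ^ s := by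
        rw [← Real.mul_rpow hEA0.le hp0.le]
        exact Real.rpow_le_rpow (by positivity) (by exact_mod_cast hEB) hs
      have hcp : (2 : ℝ) ^ ((⌊s⌋₊ : ℝ) + 1 - s) * (p : ℝ) ^ s ≤ (p : ℝ) ^ d := by
        have h1 : (2 : ℝ) ^ ((⌊s⌋₊ : ℝ) + 1 - s) ≤ (p : ℝ) ^ ((⌊s⌋₊ : ℝ) + 1 - s) :=
          Real.rpow_le_rpow (by norm_num) (by exact_mod_cast hp.two_le)
            (by linarith [Nat.lt_floor_add_one s])
        have h2 : (p : ℝ) ^ ((⌊s⌋₊ : ℝ) + 1 - s) * (p : ℝ) ^ s = (p : ℝ) ^ (⌊s⌋₊ + 1) := by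
          rw [← Real.rpow_add hp0, ← Real.rpow_natCast]
          congr 1
          push_cast
          ring
        have h3 : (p : ℝ) ^ (⌊s⌋₊ + 1) ≤ (p : ℝ) ^ d :=
          pow_le_pow_right₀ (by exact_mod_cast hp.one_lt.le) hd
        have h4 : (0 : ℝ) < (p : ℝ) ^ s := Real.rpow_pos_of_pos hp0 s
        nlinarith
      change _ * ((A.relIndex N₀ : ℝ) / ((E A : ℝ) ^ s)) ≤
        ((Fr p A).relIndex N₀ : ℝ) / ((E (Fr p A) : ℝ) ^ s)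
      rw [hidx, mul_div_assoc', div_le_div_iff₀ (hEs A hA) (hEs _ hB)]
      have hr := hrpos A hA
      have h5 := hEs A hA
      calc (2 : ℝ) ^ ((⌊s⌋₊ : ℝ) + 1 - s) * (A.relIndex N₀ : ℝ) * (E (Fr p A) : ℝ) ^ s
          ≤ (2 : ℝ) ^ ((⌊s⌋₊ : ℝ) + 1 - s) * (A.relIndex N₀ : ℝ) *
            ((E A : ℝ) ^ s * (p : ℝ) ^ s) :=
            mul_le_mul_of_nonneg_left hEBs (mul_nonneg (by positivity) hr.le)
        _ = ((2 : ℝ) ^ ((⌊s⌋₊ : ℝ) + 1 - s) * (p : ℝ) ^ s) *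
            ((A.relIndex N₀ : ℝ) * (E A : ℝ) ^ s) := by ring
        _ ≤ (p : ℝ) ^ d * ((A.relIndex N₀ : ℝ) * (E A : ℝ) ^ s) :=
            mul_le_mul_of_nonneg_right hcp (mul_nonneg hr.le h5.le)
        _ = (p : ℝ) ^ d * (A.relIndex N₀ : ℝ) * (E A : ℝ) ^ s := by ring)
  refine ⟨A, hA, fun p hp => ?_⟩
  by_contra h
  exact hgood ⟨p, hp, h⟩

end LDM
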